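import Mathlib

set_option autoImplicit false

/-! Pointwise algebra of superconformal surfaces. -/

namespace Run7.h573

open Complex ComplexConjugate

theorem alg_sc_aux (A P1 P2 ε : ℂ) (y1 y2 c e : ℝ) (hc : c ≠ 0) (he : e ≠ 0)
    (hε : ε = I ∨ ε = -I) (hA : A ≠ 0)
    (h2 : P1 * A + P2 * (ε * A) = 0)
    (h3 : A * conj P1 + (ε * A) * conj P2 = -(2 * c * e) * (P1 * y1 + P2 * y2))
    (h4 : (A * y1 + (ε * A) * y2) * ((A * conj A + (ε * A) * conj (ε * A))
        + c ^ 2 * e ^ 2 * (y1 ^ 2 + y2 ^ 2) + c * e ^ 2)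
        + c * e ^ 2 * (P1 ^ 2 + P2 ^ 2) = 0) :
    P1 * y1 + P2 * y2 = 0 ∨ 3 * c * (y1 ^ 2 + y2 ^ 2) + 1 = 0 := by
  have hε2 : ε ^ 2 = -1 := by rcases hε with h | h <;> rw [h] <;> simp
  have hεc : conj ε = -ε := by rcases hε with h | h <;> rw [h] <;> simp
  -- P1 = -ε P2
  have hP1 : P1 = -(ε * P2) := by
    have : (P1 + ε * P2) * A = 0 := by rw [← h2]; ring
    have := (mul_eq_zero.1 this).resolve_right hA
    linear_combination this
  by_cases hP2 : P2 = 0
  · left; rw [hP1, hP2]; simp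
  have hPP : P1 ^ 2 + P2 ^ 2 = 0 := by rw [hP1]; linear_combination P2 ^ 2 * hε2
  rw [hPP] at h4
  -- h3 in terms of P2
  have h3' : ε * A * conj P2 * 2 = -(2 * c * e) * (P2 * (y2 - ε * y1)) := by
    have e1 : conj P1 = ε * conj P2 := by
      rw [hP1]; simp only [map_neg, map_mul, hεc]; ring
    rw [e1, hP1] at h3
    linear_combination h3
  -- norms
  have hn : normSq (ε * A * conj P2 * 2) = normSq (-(2 * c * e) * (P2 * (y2 - ε * y1))) := by
    rw [h3']
  have hnε : normSq ε = 1 := by rcases hε with h | h <;> rw [h] <;> simp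
  have hny : normSq ((y2 : ℂ) - ε * y1) = y1 ^ 2 + y2 ^ 2 := by
    rcases hε with h | h <;> rw [h] <;> simp [normSq_apply] <;> ring
  have hP : normSq P2 ≠ 0 := by rwa [Ne, normSq_eq_zero]
  have hcc : normSq (-(2 * (c : ℂ) * e)) = 4 * c ^ 2 * e ^ 2 := by
    have : (-(2 * (c : ℂ) * e)) = ((-(2 * c * e) : ℝ) : ℂ) := by push_cast; ring
    rw [this, normSq_ofReal]; ring
  have h2n : normSq (2 : ℂ) = 4 := by
    have : (2 : ℂ) = ((2 : ℝ) : ℂ) := by norm_num
    rw [this, normSq_ofReal]; norm_num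
  rw [map_mul, map_mul, map_mul, map_mul, map_mul, hnε, hny, hcc, normSq_conj, h2n] at hn
  have hAA : normSq A = c ^ 2 * e ^ 2 * (y1 ^ 2 + y2 ^ 2) := by
    have : (4 * normSq P2) * (normSq A - c ^ 2 * e ^ 2 * (y1 ^ 2 + y2 ^ 2)) = 0 := by
      linear_combination hn
    have := (mul_eq_zero.1 this).resolve_left (mul_ne_zero four_ne_zero hP)
    linarith
  have hr : y1 ^ 2 + y2 ^ 2 ≠ 0 := by
    intro h; rw [h, mul_zero, normSq_eq_zero] at hAA; exact hA hAA
  have hτ : A * y1 + (ε * A) * y2 ≠ 0 := by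
    intro h
    have h5 : A * (y1 + ε * y2) = 0 := by rw [← h]; ring
    have h6 := (mul_eq_zero.1 h5).resolve_left hA
    have h7 : normSq ((y1 : ℂ) + ε * y2) = y1 ^ 2 + y2 ^ 2 := by
      rcases hε with h | h <;> rw [h] <;> simp [normSq_apply] <;> ring
    rw [h6] at h7; simp at h7; exact hr h7.symm
  have h5 : (A * conj A + (ε * A) * conj (ε * A)) = ((2 * normSq A : ℝ) : ℂ) := by
    rw [mul_conj, mul_conj, map_mul, hnε]; push_cast; ring
  rw [mul_zero, add_zero, h5, hAA] at h4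
  have h6 := (mul_eq_zero.1 h4).resolve_left hτ
  have h7 : 2 * (c ^ 2 * e ^ 2 * (y1 ^ 2 + y2 ^ 2)) + c ^ 2 * e ^ 2 * (y1 ^ 2 + y2 ^ 2)
      + c * e ^ 2 = 0 := by
    exact_mod_cast h6
  right
  have h8 : (c * e ^ 2) * (3 * c * (y1 ^ 2 + y2 ^ 2) + 1) = 0 := by linear_combination h7
  exact (mul_eq_zero.1 h8).resolve_left (mul_ne_zero hc (pow_ne_zero 2 he))

theorem alg_sc (A1 A2 P1 P2 : ℂ) (y1 y2 c e : ℝ) (hc : c ≠ 0) (he : e ≠ 0)
    (h1 : A1 ^ 2 + A2 ^ 2 = 0)
    (h2 : P1 * A1 + P2 * A2 = 0)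
    (h3 : A1 * conj P1 + A2 * conj P2 = -(2 * c * e) * (P1 * y1 + P2 * y2))
    (h4 : (A1 * y1 + A2 * y2) * ((A1 * conj A1 + A2 * conj A2)
        + c ^ 2 * e ^ 2 * (y1 ^ 2 + y2 ^ 2) + c * e ^ 2)
        + c * e ^ 2 * (P1 ^ 2 + P2 ^ 2) = 0) :
    P1 * y1 + P2 * y2 = 0 ∨ 3 * c * (y1 ^ 2 + y2 ^ 2) + 1 = 0 := by
  by_cases hA : A1 = 0
  · left
    have hA2 : A2 = 0 := by
      rw [hA] at h1; simpa using h1
    rw [hA, hA2] at h3
    have hk : (-(2 * (c : ℂ) * e)) ≠ 0 := by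
      have : (c : ℂ) ≠ 0 := by exact_mod_cast hc
      have : (e : ℂ) ≠ 0 := by exact_mod_cast he
      simp [*]
    have : (-(2 * (c : ℂ) * e)) * (P1 * y1 + P2 * y2) = 0 := by rw [← h3]; ring
    exact (mul_eq_zero.1 this).resolve_left hk
  have hf : (A2 - I * A1) * (A2 + I * A1) = 0 := by
    have : (A2 - I * A1) * (A2 + I * A1) = A2 ^ 2 - I ^ 2 * A1 ^ 2 := by ring
    rw [this, I_sq]; linear_combination h1
  rcases mul_eq_zero.1 hf with h | h
  · have h' : A2 = I * A1 := by linear_combination h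
    rw [h'] at h2 h3 h4
    exact alg_sc_aux A1 P1 P2 I y1 y2 c e hc he (Or.inl rfl) hA h2 h3 h4
  · have h' : A2 = (-I) * A1 := by linear_combination h
    rw [h'] at h2 h3 h4
    exact alg_sc_aux A1 P1 P2 (-I) y1 y2 c e hc he (Or.inr rfl) hA h2 h3 h4

/-- Parseval for the complexification of a real orthonormal basis. -/
theorem parseval (b : OrthonormalBasis (Fin 4) ℝ (EuclideanSpace ℝ (Fin 4)))
    (V W : Fin 4 → ℂ) :
    ∑ i, V i * W i = ∑ k, (∑ i, V i * (b k i : ℂ)) * (∑ i, W i * (b k i : ℂ)) := by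
  have h : ∀ i j : Fin 4, ∑ k, b k i * b k j = if i = j then 1 else 0 := by
    intro i j
    have := OrthonormalBasis.sum_inner_mul_inner b (EuclideanSpace.single i (1 : ℝ))
      (EuclideanSpace.single j (1 : ℝ))
    simp only [EuclideanSpace.inner_single_left, EuclideanSpace.inner_single_right, map_one,
      one_mul] at this
    rw [show (∑ k, b k i * b k j) = _ from this]
    simp [eq_comm]
  have h' : ∀ i j : Fin 4, ∑ k, (b k i : ℂ) * (b k j : ℂ) = if i = j then 1 else 0 := by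
    intro i j
    have := congrArg (fun t : ℝ => (t : ℂ)) (h i j)
    push_cast at this
    rw [this]; split_ifs <;> simp
  calc ∑ i, V i * W i = ∑ i, ∑ j, V i * W j * (if i = j then 1 else 0) := by
        simp
    _ = ∑ i, ∑ j, V i * W j * ∑ k, (b k i : ℂ) * (b k j : ℂ) := by simp only [h']
    _ = ∑ i, ∑ j, ∑ k, (V i * (b k i : ℂ)) * (W j * (b k j : ℂ)) := by
        simp only [Finset.mul_sum]
        exact Finset.sum_congr rfl fun i _ => Finset.sum_congr rfl fun j _ =>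
          Finset.sum_congr rfl fun k _ => by ring
    _ = ∑ k, ∑ i, ∑ j, (V i * (b k i : ℂ)) * (W j * (b k j : ℂ)) := by
        rw [Finset.sum_congr rfl (fun i _ => Finset.sum_comm), Finset.sum_comm]
    _ = _ := by
        exact Finset.sum_congr rfl fun k _ => by rw [Finset.sum_mul_sum]

end Run7.h573
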