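import Mathlib
import Pool.Agent.Run7.h573.Alg

set_option autoImplicit false

/-! Pointwise algebra of superconformal surfaces whose mean curvature has constant length. -/

namespace Run7.h573

open Complex ComplexConjugate

theorem alg_sc2_aux (A P1 P2 ε : ℂ) (y1 y2 c e : ℝ)
    (hε : ε = I ∨ ε = -I) (hA : A ≠ 0) (hr : y1 ^ 2 + y2 ^ 2 ≠ 0)
    (h2 : P1 * A + P2 * (ε * A) = 0)
    (h3 : A * conj P1 + (ε * A) * conj P2 = 0)
    (h4 : (A * y1 + (ε * A) * y2) * ((A * conj A + (ε * A) * conj (ε * A))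
        + c ^ 2 * e ^ 2 * (y1 ^ 2 + y2 ^ 2) + c * e ^ 2)
        + c * e ^ 2 * (P1 ^ 2 + P2 ^ 2) = 0)
    (h6 : -(c * e ^ 2 * (y1 ^ 2 + y2 ^ 2)) = (A * y1 + (ε * A) * y2) * conj (A * y1 + (ε * A) * y2)
      + c ^ 2 * e ^ 2 * (y1 ^ 2 + y2 ^ 2) ^ 2 + e * (P1 * conj P1 + P2 * conj P2)) :
    False := by
  have hεc : conj ε = -ε := by rcases hε with h | h <;> rw [h] <;> simp
  have hε0 : ε ≠ 0 := by rcases hε with h | h <;> rw [h] <;> simp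
  have hP1 : P1 = -(ε * P2) := by
    have : (P1 + ε * P2) * A = 0 := by rw [← h2]; ring
    have := (mul_eq_zero.1 this).resolve_right hA
    linear_combination this
  have hP2 : P2 = 0 := by
    have e1 : conj P1 = ε * conj P2 := by
      rw [hP1]; simp only [map_neg, map_mul, hεc]; ring
    rw [e1] at h3
    have h3' : (2 * ε * A) * conj P2 = 0 := by linear_combination h3
    have h3'' := (mul_eq_zero.1 h3').resolve_left (mul_ne_zero (mul_ne_zero two_ne_zero hε0) hA)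
    simpa using h3''
  have hP1' : P1 = 0 := by rw [hP1, hP2]; ring
  have hnε : normSq ε = 1 := by rcases hε with h | h <;> rw [h] <;> simp
  have h7 : normSq ((y1 : ℂ) + ε * y2) = y1 ^ 2 + y2 ^ 2 := by
    rcases hε with h | h <;> rw [h] <;> simp [normSq_apply] <;> ring
  have hτ : A * y1 + (ε * A) * y2 ≠ 0 := by
    intro h
    have h5 : A * (y1 + ε * y2) = 0 := by rw [← h]; ring
    have h6 := (mul_eq_zero.1 h5).resolve_left hA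
    rw [h6] at h7; simp at h7; exact hr h7.symm
  have h5 : (A * conj A + (ε * A) * conj (ε * A)) = ((2 * normSq A : ℝ) : ℂ) := by
    rw [mul_conj, mul_conj, map_mul, hnε]; push_cast; ring
  have h8 : (A * y1 + (ε * A) * y2) * conj (A * y1 + (ε * A) * y2)
      = ((normSq A * (y1 ^ 2 + y2 ^ 2) : ℝ) : ℂ) := by
    rw [mul_conj, show A * y1 + (ε * A) * y2 = A * ((y1 : ℂ) + ε * y2) by ring, map_mul, h7]
  rw [hP1', hP2, h5] at h4
  rw [hP1', hP2, h8] at h6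
  have h4' : (A * y1 + (ε * A) * y2) * (((2 * normSq A : ℝ) : ℂ)
        + c ^ 2 * e ^ 2 * (y1 ^ 2 + y2 ^ 2) + c * e ^ 2) = 0 := by
    rw [← h4]; ring
  have h4'' := (mul_eq_zero.1 h4').resolve_left hτ
  have g4 : 2 * normSq A + c ^ 2 * e ^ 2 * (y1 ^ 2 + y2 ^ 2) + c * e ^ 2 = 0 := by
    exact_mod_cast h4''
  have h6' : -((c : ℂ) * e ^ 2 * (y1 ^ 2 + y2 ^ 2)) = ((normSq A * (y1 ^ 2 + y2 ^ 2) : ℝ) : ℂ)
      + c ^ 2 * e ^ 2 * (y1 ^ 2 + y2 ^ 2) ^ 2 := by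
    rw [h6]; simp
  have g6 : -(c * e ^ 2 * (y1 ^ 2 + y2 ^ 2)) = normSq A * (y1 ^ 2 + y2 ^ 2)
      + c ^ 2 * e ^ 2 * (y1 ^ 2 + y2 ^ 2) ^ 2 := by
    exact_mod_cast h6'
  have g7 : (y1 ^ 2 + y2 ^ 2) * normSq A = 0 := by
    linear_combination (y1 ^ 2 + y2 ^ 2) * g4 + g6
  have g8 := (mul_eq_zero.1 g7).resolve_left hr
  exact hA (normSq_eq_zero.1 g8)

theorem alg_sc2 (A1 A2 P1 P2 : ℂ) (y1 y2 c e : ℝ) (hc : c ≠ 0) (he : e ≠ 0)
    (hr : y1 ^ 2 + y2 ^ 2 ≠ 0)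
    (h1 : A1 ^ 2 + A2 ^ 2 = 0)
    (h2 : P1 * A1 + P2 * A2 = 0)
    (h3 : A1 * conj P1 + A2 * conj P2 = -(2 * c * e) * (P1 * y1 + P2 * y2))
    (h4 : (A1 * y1 + A2 * y2) * ((A1 * conj A1 + A2 * conj A2)
        + c ^ 2 * e ^ 2 * (y1 ^ 2 + y2 ^ 2) + c * e ^ 2)
        + c * e ^ 2 * (P1 ^ 2 + P2 ^ 2) = 0)
    (h5 : P1 * y1 + P2 * y2 = 0)
    (h6 : -(c * e ^ 2 * (y1 ^ 2 + y2 ^ 2)) = (A1 * y1 + A2 * y2) * conj (A1 * y1 + A2 * y2)
      + c ^ 2 * e ^ 2 * (y1 ^ 2 + y2 ^ 2) ^ 2 + e * (P1 * conj P1 + P2 * conj P2)) :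
    A1 = 0 ∧ A2 = 0 ∧ P1 = 0 ∧ P2 = 0 ∧ 1 + c * (y1 ^ 2 + y2 ^ 2) = 0 := by
  rw [h5, mul_zero] at h3
  by_cases hA : A1 = 0
  · have hA2 : A2 = 0 := by
      rw [hA] at h1; simpa using h1
    rw [hA, hA2] at h4 h6
    have hcC : (c : ℂ) ≠ 0 := by exact_mod_cast hc
    have heC : (e : ℂ) ≠ 0 := by exact_mod_cast he
    have hrC : (y1 : ℂ) ^ 2 + (y2 : ℂ) ^ 2 ≠ 0 := by exact_mod_cast hr
    have g1 : ((c : ℂ) * e ^ 2) * (P1 ^ 2 + P2 ^ 2) = 0 := by rw [← h4]; ring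
    have g2 := (mul_eq_zero.1 g1).resolve_left (mul_ne_zero hcC (pow_ne_zero 2 heC))
    have g3 : P2 * y1 - P1 * y2 = 0 := by
      have : (P2 * y1 - P1 * y2) ^ 2 = 0 := by
        linear_combination ((y1 : ℂ) ^ 2 + (y2 : ℂ) ^ 2) * g2 - (P1 * y1 + P2 * y2) * h5
      exact pow_eq_zero_iff (two_ne_zero) |>.1 this
    have hP1 : P1 = 0 := by
      have : ((y1 : ℂ) ^ 2 + (y2 : ℂ) ^ 2) * P1 = 0 := by
        linear_combination (y1 : ℂ) * h5 - (y2 : ℂ) * g3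
      exact (mul_eq_zero.1 this).resolve_left hrC
    have hP2 : P2 = 0 := by
      have : ((y1 : ℂ) ^ 2 + (y2 : ℂ) ^ 2) * P2 = 0 := by
        linear_combination (y2 : ℂ) * h5 + (y1 : ℂ) * g3
      exact (mul_eq_zero.1 this).resolve_left hrC
    refine ⟨hA, hA2, hP1, hP2, ?_⟩
    rw [hP1, hP2] at h6
    have g5 : -((c : ℂ) * e ^ 2 * (y1 ^ 2 + y2 ^ 2)) = c ^ 2 * e ^ 2 * (y1 ^ 2 + y2 ^ 2) ^ 2 := by
      rw [h6]; simp
    have g6 : -(c * e ^ 2 * (y1 ^ 2 + y2 ^ 2)) = c ^ 2 * e ^ 2 * (y1 ^ 2 + y2 ^ 2) ^ 2 := by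
      exact_mod_cast g5
    have g7 : (c * e ^ 2 * (y1 ^ 2 + y2 ^ 2)) * (1 + c * (y1 ^ 2 + y2 ^ 2)) = 0 := by
      linear_combination -g6
    exact (mul_eq_zero.1 g7).resolve_left
      (mul_ne_zero (mul_ne_zero hc (pow_ne_zero 2 he)) hr)
  exfalso
  have hf : (A2 - I * A1) * (A2 + I * A1) = 0 := by
    have : (A2 - I * A1) * (A2 + I * A1) = A2 ^ 2 - I ^ 2 * A1 ^ 2 := by ring
    rw [this, I_sq]; linear_combination h1
  rcases mul_eq_zero.1 hf with h | h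
  · have h' : A2 = I * A1 := by linear_combination h
    rw [h'] at h2 h3 h4 h6
    exact alg_sc2_aux A1 P1 P2 I y1 y2 c e (Or.inl rfl) hA hr h2 h3 h4 h6
  · have h' : A2 = (-I) * A1 := by linear_combination h
    rw [h'] at h2 h3 h4 h6
    exact alg_sc2_aux A1 P1 P2 (-I) y1 y2 c e (Or.inr rfl) hA hr h2 h3 h4 h6

end Run7.h573
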