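import Mathlib

set_option autoImplicit false

/-! Wirtinger type derivatives of smooth complex valued functions on an open set of the plane. -/

namespace Run7.h573

open Complex

/-- smooth on `U` -/
def Sm (U : Set (ℝ × ℝ)) (F : ℝ × ℝ → ℂ) : Prop :=
  ContDiffOn ℝ ((⊤ : ℕ∞) : WithTop ℕ∞) F U

/-- the derivative `α ∂₁ + β ∂₂` -/
noncomputable def dd (α β : ℂ) (F : ℝ × ℝ → ℂ) (p : ℝ × ℝ) : ℂ :=
  α * fderiv ℝ F p (1, 0) + β * fderiv ℝ F p (0, 1)

variable {U : Set (ℝ × ℝ)} {F G : ℝ × ℝ → ℂ} {p : ℝ × ℝ} {α β γ δ : ℂ}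

theorem Sm.diffAt (hU : IsOpen U) (h : Sm U F) (hp : p ∈ U) : DifferentiableAt ℝ F p :=
  (h.contDiffAt (hU.mem_nhds hp)).differentiableAt (by simp)

theorem Sm.const (c : ℂ) : Sm U (fun _ => c) := contDiffOn_const

theorem Sm.add (h : Sm U F) (k : Sm U G) : Sm U (fun q => F q + G q) := ContDiffOn.add h k
theorem Sm.sub (h : Sm U F) (k : Sm U G) : Sm U (fun q => F q - G q) := ContDiffOn.sub h k
theorem Sm.neg (h : Sm U F) : Sm U (fun q => - F q) := ContDiffOn.neg h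
theorem Sm.mul (h : Sm U F) (k : Sm U G) : Sm U (fun q => F q * G q) := ContDiffOn.mul h k

theorem Sm.congr' (h : Sm U F) (k : ∀ q ∈ U, G q = F q) : Sm U G := ContDiffOn.congr h k

theorem Sm.fderiv_apply (hU : IsOpen U) (h : Sm U F) (v : ℝ × ℝ) :
    Sm U (fun q => fderiv ℝ F q v) := by
  have h1 : ContDiffOn ℝ ((⊤ : ℕ∞) : WithTop ℕ∞) (fderiv ℝ F) U :=
    ContDiffOn.fderiv_of_isOpen h hU (by simp)
  exact h1.clm_apply contDiffOn_const

theorem Sm.dd (hU : IsOpen U) (h : Sm U F) : Sm U (dd α β F) :=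
  ((Sm.const α).mul (h.fderiv_apply hU _)).add ((Sm.const β).mul (h.fderiv_apply hU _))

theorem dd_congr (hU : IsOpen U) (hp : p ∈ U) (k : ∀ q ∈ U, F q = G q) :
    dd α β F p = dd α β G p := by
  have h : F =ᶠ[nhds p] G := Filter.eventuallyEq_of_mem (hU.mem_nhds hp) k
  unfold dd
  rw [h.fderiv_eq]

theorem dd_const (c : ℂ) : dd α β (fun _ => c) p = 0 := by
  simp [dd]

theorem dd_add (hU : IsOpen U) (hp : p ∈ U) (h : Sm U F) (k : Sm U G) :
    dd α β (fun q => F q + G q) p = dd α β F p + dd α β G p := by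
  have := fderiv_fun_add (h.diffAt hU hp) (k.diffAt hU hp)
  unfold dd
  rw [this]; simp; ring

theorem dd_neg : dd α β (fun q => - F q) p = - dd α β F p := by
  unfold dd
  rw [fderiv_fun_neg]; simp; ring

theorem dd_sub (hU : IsOpen U) (hp : p ∈ U) (h : Sm U F) (k : Sm U G) :
    dd α β (fun q => F q - G q) p = dd α β F p - dd α β G p := by
  have := fderiv_fun_sub (h.diffAt hU hp) (k.diffAt hU hp)
  unfold dd
  rw [this]; simp; ring

theorem dd_mul (hU : IsOpen U) (hp : p ∈ U) (h : Sm U F) (k : Sm U G) :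
    dd α β (fun q => F q * G q) p = dd α β F p * G p + F p * dd α β G p := by
  have := fderiv_fun_mul (h.diffAt hU hp) (k.diffAt hU hp)
  unfold dd
  rw [this]; simp; ring

theorem dd_comm (hU : IsOpen U) (hp : p ∈ U) (h : Sm U F) :
    dd α β (dd γ δ F) p = dd γ δ (dd α β F) p := by
  have h1 : ContDiffAt ℝ ((⊤ : ℕ∞) : WithTop ℕ∞) F p := h.contDiffAt (hU.mem_nhds hp)
  have hs : IsSymmSndFDerivAt ℝ F p :=
    h1.isSymmSndFDerivAt (by
      rw [minSmoothness_of_isRCLikeNormedField]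
      exact WithTop.coe_le_coe.2 (show ((2 : ℕ) : ℕ∞) ≤ ⊤ from le_top))
  have hd : DifferentiableAt ℝ (fderiv ℝ F) p := by
    have h2 : ContDiffOn ℝ ((⊤ : ℕ∞) : WithTop ℕ∞) (fderiv ℝ F) U :=
      ContDiffOn.fderiv_of_isOpen h hU (by simp)
    exact (h2.contDiffAt (hU.mem_nhds hp)).differentiableAt (by simp)
  have key : ∀ v w : ℝ × ℝ, fderiv ℝ (fun q => fderiv ℝ F q v) p w
      = fderiv ℝ (fderiv ℝ F) p w v := by
    intro v w
    rw [fderiv_clm_apply hd (differentiableAt_const v)]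
    simp
  have e1 : ∀ (a b : ℂ) (w : ℝ × ℝ), fderiv ℝ (dd a b F) p w
      = a * fderiv ℝ (fderiv ℝ F) p w (1, 0) + b * fderiv ℝ (fderiv ℝ F) p w (0, 1) := by
    intro a b w
    have ha : DifferentiableAt ℝ (fun q => fderiv ℝ F q (1, 0)) p :=
      (h.fderiv_apply hU (1, 0)).diffAt hU hp
    have hb : DifferentiableAt ℝ (fun q => fderiv ℝ F q (0, 1)) p :=
      (h.fderiv_apply hU (0, 1)).diffAt hU hp
    have : fderiv ℝ (dd a b F) p = a • fderiv ℝ (fun q => fderiv ℝ F q (1, 0)) p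
        + b • fderiv ℝ (fun q => fderiv ℝ F q (0, 1)) p := by
      have h3 : dd a b F = fun q => a * fderiv ℝ F q (1, 0) + b * fderiv ℝ F q (0, 1) := rfl
      rw [h3, fderiv_fun_add (ha.const_mul a) (hb.const_mul b), fderiv_const_mul ha, fderiv_const_mul hb]
    rw [this]
    simp [key]
  have hs' : fderiv ℝ (fderiv ℝ F) p (1, 0) (0, 1) = fderiv ℝ (fderiv ℝ F) p (0, 1) (1, 0) :=
    hs _ _
  show α * fderiv ℝ (dd γ δ F) p (1, 0) + β * fderiv ℝ (dd γ δ F) p (0, 1)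
    = γ * fderiv ℝ (dd α β F) p (1, 0) + δ * fderiv ℝ (dd α β F) p (0, 1)
  rw [e1, e1, e1, e1, hs']
  ring

end Run7.h573
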