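import Mathlib
import Pool.Agent.Run7.h573.Wirt

set_option autoImplicit false

/-! Identities for solutions of `f_{zw} = c e y`, `y_{zw} = c e y` in `ℂ⁴`. -/

namespace Run7.h573

open Complex

/-- the Wirtinger derivatives -/
noncomputable def dz : (ℝ × ℝ → ℂ) → ℝ × ℝ → ℂ := dd (1 / 2) (-I / 2)
noncomputable def dw : (ℝ × ℝ → ℂ) → ℝ × ℝ → ℂ := dd (1 / 2) (I / 2)

/-- a vector field with values in `ℂ⁴` -/
abbrev VF := Fin 4 → ℝ × ℝ → ℂ

/-- the complex bilinear product -/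
noncomputable def dot (V W : VF) : ℝ × ℝ → ℂ := fun p => ∑ i, V i p * W i p

noncomputable def vz (V : VF) : VF := fun i => dz (V i)
noncomputable def vw (V : VF) : VF := fun i => dw (V i)

variable {U : Set (ℝ × ℝ)} {V W : VF} {F G : ℝ × ℝ → ℂ} {p : ℝ × ℝ}

theorem dot_comm : dot V W p = dot W V p := by
  simp only [dot]; exact Finset.sum_congr rfl fun i _ => mul_comm _ _

/-- smooth vector field -/
def SmV (U : Set (ℝ × ℝ)) (V : VF) : Prop := ∀ i, Sm U (V i)

theorem Sm.dot (h : SmV U V) (k : SmV U W) : Sm U (dot V W) := by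
  have : Sm U (fun p => V 0 p * W 0 p + V 1 p * W 1 p + V 2 p * W 2 p + V 3 p * W 3 p) :=
    ((((h 0).mul (k 0)).add ((h 1).mul (k 1))).add ((h 2).mul (k 2))).add ((h 3).mul (k 3))
  exact this.congr' fun q _ => by simp [Run7.h573.dot, Fin.sum_univ_four]

theorem Sm.dz (hU : IsOpen U) (h : Sm U F) : Sm U (dz F) := Sm.dd hU h
theorem Sm.dw (hU : IsOpen U) (h : Sm U F) : Sm U (dw F) := Sm.dd hU h
theorem SmV.vz (hU : IsOpen U) (h : SmV U V) : SmV U (vz V) := fun i => (h i).dz hU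
theorem SmV.vw (hU : IsOpen U) (h : SmV U V) : SmV U (vw V) := fun i => (h i).dw hU

theorem dd_dot {α β : ℂ} (hU : IsOpen U) (hp : p ∈ U) (h : SmV U V) (k : SmV U W) :
    dd α β (dot V W) p = ∑ i, dd α β (V i) p * W i p + ∑ i, V i p * dd α β (W i) p := by
  have e1 : dd α β (dot V W) p
      = dd α β (fun p => V 0 p * W 0 p + V 1 p * W 1 p + V 2 p * W 2 p + V 3 p * W 3 p) p :=
    dd_congr hU hp fun q _ => by simp [dot, Fin.sum_univ_four]
  rw [e1, dd_add hU hp ((((h 0).mul (k 0)).add ((h 1).mul (k 1))).add ((h 2).mul (k 2)))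
      ((h 3).mul (k 3)),
    dd_add hU hp (((h 0).mul (k 0)).add ((h 1).mul (k 1))) ((h 2).mul (k 2)),
    dd_add hU hp ((h 0).mul (k 0)) ((h 1).mul (k 1)),
    dd_mul hU hp (h 0) (k 0), dd_mul hU hp (h 1) (k 1), dd_mul hU hp (h 2) (k 2),
    dd_mul hU hp (h 3) (k 3)]
  simp only [Fin.sum_univ_four]; ring

theorem dz_dot (hU : IsOpen U) (hp : p ∈ U) (h : SmV U V) (k : SmV U W) :
    dz (dot V W) p = dot (vz V) W p + dot V (vz W) p := dd_dot hU hp h k

theorem dw_dot (hU : IsOpen U) (hp : p ∈ U) (h : SmV U V) (k : SmV U W) :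
    dw (dot V W) p = dot (vw V) W p + dot V (vw W) p := dd_dot hU hp h k

/-- The data of a conformal immersion with `Δ² f = 2 c Δ f`: `X = f_z`, `Y = f_w`,
`y = Δ f / (2 c)`, `e = f_z · f_w`. -/
structure Data (U : Set (ℝ × ℝ)) (X Y y : VF) (e : ℝ × ℝ → ℂ) (c : ℂ) : Prop where
  hU : IsOpen U
  sX : SmV U X
  sY : SmV U Y
  sy : SmV U y
  c0 : c ≠ 0
  e0 : ∀ p ∈ U, e p ≠ 0
  Xw : ∀ p ∈ U, ∀ i, vw X i p = c * e p * y i p
  Yz : ∀ p ∈ U, ∀ i, vz Y i p = c * e p * y i p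
  yzw : ∀ p ∈ U, ∀ i, vz (vw y) i p = c * e p * y i p
  XX : ∀ p ∈ U, dot X X p = 0
  YY : ∀ p ∈ U, dot Y Y p = 0
  XY : ∀ p ∈ U, dot X Y p = e p

namespace Data

variable {X Y y : VF} {e : ℝ × ℝ → ℂ} {c : ℂ}

theorem dot_smul_right (s : ℂ) (h : ∀ i, W i p = s * G p * y i p) :
    dot V W p = s * G p * dot V y p := by
  simp only [dot, h, Finset.mul_sum]; exact Finset.sum_congr rfl fun i _ => by ring

theorem dot_smul_left (s : ℂ) (h : ∀ i, W i p = s * G p * y i p) :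
    dot W V p = s * G p * dot y V p := by
  simp only [dot, h, Finset.mul_sum]; exact Finset.sum_congr rfl fun i _ => by ring

variable (D : Data U X Y y e c)
include D

theorem se : Sm U e := (D.sX |> fun h => Sm.dot h D.sY).congr' fun q hq => (D.XY q hq).symm

theorem ywz (p : ℝ × ℝ) (hp : p ∈ U) (i : Fin 4) : vw (vz y) i p = c * e p * y i p := by
  rw [← D.yzw p hp i]; exact dd_comm D.hU hp (D.sy i)

theorem Xy (p : ℝ × ℝ) (hp : p ∈ U) : dot X y p = 0 := by
  have h1 : dw (dot X X) p = dw (fun _ => (0 : ℂ)) p := dd_congr D.hU hp D.XX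
  rw [dw_dot D.hU hp D.sX D.sX, show dw (fun _ => (0 : ℂ)) p = 0 from dd_const 0,
    dot_smul_left c (D.Xw p hp), dot_smul_right c (D.Xw p hp)] at h1
  rw [dot_comm] at h1
  have h2 : (2 * (c * e p)) * dot X y p = 0 := by rw [← h1]; ring
  exact (mul_eq_zero.1 h2).resolve_left
    (mul_ne_zero two_ne_zero (mul_ne_zero D.c0 (D.e0 p hp)))

theorem Yy (p : ℝ × ℝ) (hp : p ∈ U) : dot Y y p = 0 := by
  have h1 : dz (dot Y Y) p = dz (fun _ => (0 : ℂ)) p := dd_congr D.hU hp D.YY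
  rw [dz_dot D.hU hp D.sY D.sY, show dz (fun _ => (0 : ℂ)) p = 0 from dd_const 0,
    dot_smul_left c (D.Yz p hp), dot_smul_right c (D.Yz p hp)] at h1
  rw [dot_comm] at h1
  have h2 : (2 * (c * e p)) * dot Y y p = 0 := by rw [← h1]; ring
  exact (mul_eq_zero.1 h2).resolve_left
    (mul_ne_zero two_ne_zero (mul_ne_zero D.c0 (D.e0 p hp)))

theorem XzX (p : ℝ × ℝ) (hp : p ∈ U) : dot (vz X) X p = 0 := by
  have h1 : dz (dot X X) p = dz (fun _ => (0 : ℂ)) p := dd_congr D.hU hp D.XX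
  rw [dz_dot D.hU hp D.sX D.sX, show dz (fun _ => (0 : ℂ)) p = 0 from dd_const 0,
    dot_comm (V := X)] at h1
  have h2 : (2 : ℂ) * dot (vz X) X p = 0 := by rw [← h1]; ring
  exact (mul_eq_zero.1 h2).resolve_left two_ne_zero

theorem YwY (p : ℝ × ℝ) (hp : p ∈ U) : dot (vw Y) Y p = 0 := by
  have h1 : dw (dot Y Y) p = dw (fun _ => (0 : ℂ)) p := dd_congr D.hU hp D.YY
  rw [dw_dot D.hU hp D.sY D.sY, show dw (fun _ => (0 : ℂ)) p = 0 from dd_const 0,
    dot_comm (V := Y)] at h1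
  have h2 : (2 : ℂ) * dot (vw Y) Y p = 0 := by rw [← h1]; ring
  exact (mul_eq_zero.1 h2).resolve_left two_ne_zero

theorem XzY (p : ℝ × ℝ) (hp : p ∈ U) : dot (vz X) Y p = dz e p := by
  have h1 : dz (dot X Y) p = dz e p := dd_congr D.hU hp D.XY
  rw [dz_dot D.hU hp D.sX D.sY, dot_smul_right c (D.Yz p hp), D.Xy p hp] at h1
  rw [← h1]; ring

theorem YwX (p : ℝ × ℝ) (hp : p ∈ U) : dot (vw Y) X p = dw e p := by
  have h1 : dw (dot X Y) p = dw e p := dd_congr D.hU hp D.XY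
  rw [dw_dot D.hU hp D.sX D.sY, dot_smul_left c (D.Xw p hp), dot_comm (V := y), D.Yy p hp,
    dot_comm (V := X)] at h1
  rw [← h1]; ring

theorem yzX (p : ℝ × ℝ) (hp : p ∈ U) : dot (vz y) X p = - dot (vz X) y p := by
  have h1 : dz (dot X y) p = dz (fun _ => (0 : ℂ)) p := dd_congr D.hU hp D.Xy
  rw [dz_dot D.hU hp D.sX D.sy, show dz (fun _ => (0 : ℂ)) p = 0 from dd_const 0,
    dot_comm (V := X)] at h1
  linear_combination h1

theorem ywX (p : ℝ × ℝ) (hp : p ∈ U) : dot (vw y) X p = - (c * e p * dot y y p) := by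
  have h1 : dw (dot X y) p = dw (fun _ => (0 : ℂ)) p := dd_congr D.hU hp D.Xy
  rw [dw_dot D.hU hp D.sX D.sy, show dw (fun _ => (0 : ℂ)) p = 0 from dd_const 0,
    dot_comm (V := X), dot_smul_left c (D.Xw p hp)] at h1
  linear_combination h1

theorem ywY (p : ℝ × ℝ) (hp : p ∈ U) : dot (vw y) Y p = - dot (vw Y) y p := by
  have h1 : dw (dot Y y) p = dw (fun _ => (0 : ℂ)) p := dd_congr D.hU hp D.Yy
  rw [dw_dot D.hU hp D.sY D.sy, show dw (fun _ => (0 : ℂ)) p = 0 from dd_const 0,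
    dot_comm (V := Y)] at h1
  linear_combination h1

theorem yzY (p : ℝ × ℝ) (hp : p ∈ U) : dot (vz y) Y p = - (c * e p * dot y y p) := by
  have h1 : dz (dot Y y) p = dz (fun _ => (0 : ℂ)) p := dd_congr D.hU hp D.Yy
  rw [dz_dot D.hU hp D.sY D.sy, show dz (fun _ => (0 : ℂ)) p = 0 from dd_const 0,
    dot_comm (V := Y), dot_smul_left c (D.Yz p hp)] at h1
  linear_combination h1

theorem rz (p : ℝ × ℝ) (hp : p ∈ U) : dz (dot y y) p = 2 * dot (vz y) y p := by
  rw [dz_dot D.hU hp D.sy D.sy, dot_comm (V := y)]; ring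

theorem rw' (p : ℝ × ℝ) (hp : p ∈ U) : dw (dot y y) p = 2 * dot (vw y) y p := by
  rw [dw_dot D.hU hp D.sy D.sy, dot_comm (V := y)]; ring

/-- the tangential equation -/
theorem T (p : ℝ × ℝ) (hp : p ∈ U) :
    dot (vw y) (vz X) p = - c * (dz e p * dot y y p + e p * dz (dot y y) p) := by
  have hsr : Sm U (dot y y) := Sm.dot D.sy D.sy
  have h1 : dz (dot (vw y) X) p = dz (fun q => (-c) * (e q * dot y y q)) p :=
    dd_congr D.hU hp fun q hq => by rw [D.ywX q hq]; ring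
  rw [dz_dot D.hU hp (D.sy.vw D.hU) D.sX] at h1
  have h2 : dz (fun q => (-c) * (e q * dot y y q)) p
      = (-c) * (dz e p * dot y y p + e p * dz (dot y y) p) := by
    have h3 := dd_mul (α := 1 / 2) (β := -I / 2) D.hU hp (Sm.const (-c)) (D.se.mul hsr)
    have h4 := dd_mul (α := 1 / 2) (β := -I / 2) D.hU hp D.se hsr
    have h5 := dd_const (α := 1 / 2) (β := -I / 2) (p := p) (-c)
    unfold dz
    rw [h3, h4, h5]; ring
  rw [h2, dot_smul_left c (D.yzw p hp), dot_comm (V := y), D.Xy p hp] at h1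
  linear_combination h1

theorem T' (p : ℝ × ℝ) (hp : p ∈ U) :
    dot (vz y) (vw Y) p = - c * (dw e p * dot y y p + e p * dw (dot y y) p) := by
  have hsr : Sm U (dot y y) := Sm.dot D.sy D.sy
  have h1 : dw (dot (vz y) Y) p = dw (fun q => (-c) * (e q * dot y y q)) p :=
    dd_congr D.hU hp fun q hq => by rw [D.yzY q hq]; ring
  rw [dw_dot D.hU hp (D.sy.vz D.hU) D.sY] at h1
  have h2 : dw (fun q => (-c) * (e q * dot y y q)) p
      = (-c) * (dw e p * dot y y p + e p * dw (dot y y) p) := by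
    have h3 := dd_mul (α := 1 / 2) (β := I / 2) D.hU hp (Sm.const (-c)) (D.se.mul hsr)
    have h4 := dd_mul (α := 1 / 2) (β := I / 2) D.hU hp D.se hsr
    have h5 := dd_const (α := 1 / 2) (β := I / 2) (p := p) (-c)
    unfold dw
    rw [h3, h4, h5]; ring
  rw [h2, dot_smul_left c (D.ywz p hp), dot_comm (V := y), D.Yy p hp] at h1
  linear_combination h1

/-- `X_{zw} = c (e_z y + e y_z)` -/
theorem Xzw (p : ℝ × ℝ) (hp : p ∈ U) (i : Fin 4) :
    vw (vz X) i p = c * (dz e p * y i p + e p * vz y i p) := by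
  have h0 : vw (vz X) i p = dz (vw X i) p := dd_comm D.hU hp (D.sX i)
  have h1 : dz (vw X i) p = dz (fun q => c * (e q * y i q)) p :=
    dd_congr D.hU hp fun q hq => by rw [D.Xw q hq]; ring
  have h3 := dd_mul (α := 1 / 2) (β := -I / 2) D.hU hp (Sm.const c) (D.se.mul (D.sy i))
  have h4 := dd_mul (α := 1 / 2) (β := -I / 2) D.hU hp D.se (D.sy i)
  have h5 := dd_const (α := 1 / 2) (β := -I / 2) (p := p) c
  rw [h0, h1]
  show dd _ _ _ _ = c * (dd _ _ _ _ * _ + _ * dd _ _ _ _)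
  rw [h3, h4, h5]; ring

theorem dot_Xzw (p : ℝ × ℝ) (hp : p ∈ U) (V : VF) :
    dot (vw (vz X)) V p = c * (dz e p * dot y V p + e p * dot (vz y) V p) := by
  simp only [dot, D.Xzw p hp, Finset.mul_sum, ← Finset.sum_add_distrib]
  exact Finset.sum_congr rfl fun i _ => by ring

/-- second derivative of `e` (Gauss equation) -/
theorem ezw (p : ℝ × ℝ) (hp : p ∈ U) :
    dw (dz e) p = dot (vz X) (vw Y) p - c ^ 2 * e p ^ 2 * dot y y p := by
  have h1 : dw (dot (vz X) Y) p = dw (dz e) p := dd_congr D.hU hp D.XzY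
  rw [dw_dot D.hU hp (D.sX.vz D.hU) D.sY, D.dot_Xzw p hp, dot_comm (V := y), D.Yy p hp,
    D.yzY p hp] at h1
  linear_combination -h1

/-- derivative of `τ = X_z · y` -/
theorem tauw (p : ℝ × ℝ) (hp : p ∈ U) :
    dw (dot (vz X) y) p = - (c * e p * dot (vz y) y p) := by
  rw [dw_dot D.hU hp (D.sX.vz D.hU) D.sy, D.dot_Xzw p hp, dot_comm (V := vz X) (W := vw y),
    D.T p hp, D.rz p hp]
  ring

end Data

/-- Data of a superconformal surface. -/
structure SCData (U : Set (ℝ × ℝ)) (X Y y : VF) (e : ℝ × ℝ → ℂ) (c : ℂ) : Prop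
    extends Data U X Y y e c where
  sc : ∀ p ∈ U, dot (vz X) (vz X) p = 0

namespace SCData

variable {X Y y : VF} {e : ℝ × ℝ → ℂ} {c : ℂ} (D : SCData U X Y y e c)
include D

theorem i1 (p : ℝ × ℝ) (hp : p ∈ U) :
    dz e p * dot (vz X) y p + e p * dot (vz y) (vz X) p = 0 := by
  have h1 : dw (dot (vz X) (vz X)) p = dw (fun _ => (0 : ℂ)) p := dd_congr D.hU hp D.sc
  have sXz := D.sX.vz D.hU
  rw [dw_dot D.hU hp sXz sXz, show dw (fun _ => (0 : ℂ)) p = 0 from dd_const 0,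
    dot_comm (V := vz X) (W := vw (vz X)), D.toData.dot_Xzw p hp, dot_comm (V := y)] at h1
  have h2 : (2 * c) * (dz e p * dot (vz X) y p + e p * dot (vz y) (vz X) p) = 0 := by
    rw [← h1]; ring
  exact (mul_eq_zero.1 h2).resolve_left (mul_ne_zero two_ne_zero D.c0)

theorem i2 (p : ℝ × ℝ) (hp : p ∈ U) :
    dw (dz e) p * dot (vz X) y p - dz e p * (c * e p * dot (vz y) y p)
      + dw e p * dot (vz y) (vz X) p
      + e p * (c * e p * dot (vz X) y p
        + c * (dz e p * dot (vz y) y p + e p * dot (vz y) (vz y) p)) = 0 := by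
  have sXz := D.sX.vz D.hU
  have syz := D.sy.vz D.hU
  have sez := D.toData.se.dz D.hU
  have h1 : dw (fun q => dz e q * dot (vz X) y q + e q * dot (vz y) (vz X) q) p
      = dw (fun _ => (0 : ℂ)) p := dd_congr D.hU hp D.i1
  have h2 : dw (fun q => dz e q * dot (vz X) y q + e q * dot (vz y) (vz X) q) p
      = (dw (dz e) p * dot (vz X) y p + dz e p * dw (dot (vz X) y) p)
        + (dw e p * dot (vz y) (vz X) p + e p * dw (dot (vz y) (vz X)) p) := by
    have a1 := dd_add (α := 1 / 2) (β := I / 2) D.hU hp (sez.mul (Sm.dot sXz D.sy))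
      (D.toData.se.mul (Sm.dot syz sXz))
    have a2 := dd_mul (α := 1 / 2) (β := I / 2) D.hU hp sez (Sm.dot sXz D.sy)
    have a3 := dd_mul (α := 1 / 2) (β := I / 2) D.hU hp D.toData.se (Sm.dot syz sXz)
    show dd _ _ _ _ = _
    rw [a1, a2, a3]; rfl
  rw [h2, show dw (fun _ => (0 : ℂ)) p = 0 from dd_const 0, D.toData.tauw p hp,
    dw_dot D.hU hp syz sXz, Data.dot_smul_left c (D.toData.ywz p hp),
    dot_comm (V := vz y) (W := vw (vz X)), D.toData.dot_Xzw p hp, dot_comm (V := y) (W := vz X),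
    dot_comm (V := y) (W := vz y)] at h1
  linear_combination h1

end SCData

end Run7.h573
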