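import Mathlib
import Pool.Agent.Run7.h573.Null2
import Pool.Agent.Run7.h573.Alg

set_option autoImplicit false

/-! Conformal immersions of plane domains into Euclidean 4-space. -/

namespace Run7.h573

open Complex ComplexConjugate

/-- Euclidean 4-space. -/
abbrev E4 := EuclideanSpace ℝ (Fin 4)

/-- The two partial derivatives. -/
noncomputable def D1 (F : ℝ × ℝ → E4) (p : ℝ × ℝ) : E4 := fderiv ℝ F p (1, 0)
noncomputable def D2 (F : ℝ × ℝ → E4) (p : ℝ × ℝ) : E4 := fderiv ℝ F p (0, 1)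

/-- `f` is a smooth conformal immersion on `U`. -/
structure IsConformalImmersion (U : Set (ℝ × ℝ)) (f : ℝ × ℝ → E4) : Prop where
  smooth : ContDiffOn ℝ ((⊤ : ℕ∞) : WithTop ℕ∞) f U
  immersion : ∀ p ∈ U, D1 f p ≠ 0
  norm_eq : ∀ p ∈ U, ‖D1 f p‖ = ‖D2 f p‖
  orthogonal : ∀ p ∈ U, inner ℝ (D1 f p) (D2 f p) = 0

/-- The Laplacian of the metric induced by the conformal immersion `f`, applied to `F`. -/
noncomputable def Lap (f F : ℝ × ℝ → E4) (p : ℝ × ℝ) : E4 :=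
  (‖D1 f p‖ ^ 2)⁻¹ • (D1 (D1 F) p + D2 (D2 F) p)

/-- The component of `v` normal to the surface `f` at `p`. -/
noncomputable def nor (f : ℝ × ℝ → E4) (p : ℝ × ℝ) (v : E4) : E4 :=
  v - (inner ℝ v (D1 f p) / ‖D1 f p‖ ^ 2) • D1 f p - (inner ℝ v (D2 f p) / ‖D2 f p‖ ^ 2) • D2 f p

/-- The second fundamental form in the direction of the unit tangent vector
`(cos θ ∂₁ + sin θ ∂₂) / ‖∂₁ f‖`. -/
noncomputable def II (f : ℝ × ℝ → E4) (p : ℝ × ℝ) (θ : ℝ) : E4 :=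
  (‖D1 f p‖ ^ 2)⁻¹ • nor f p ((Real.cos θ ^ 2) • D1 (D1 f) p
    + (2 * Real.sin θ * Real.cos θ) • D2 (D1 f) p + (Real.sin θ ^ 2) • D2 (D2 f) p)

/-- The mean curvature vector: half the trace of the second fundamental form. -/
noncomputable def meanCurv (f : ℝ × ℝ → E4) (p : ℝ × ℝ) : E4 :=
  (1 / 2 : ℝ) • (II f p 0 + II f p (Real.pi / 2))

/-- The curvature ellipse `{II(θ)}` of `f` is a circle (possibly a point) at `p`. -/
def CircularCurvatureEllipse (f : ℝ × ℝ → E4) (p : ℝ × ℝ) : Prop :=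
  ∃ ρ : ℝ, ∀ θ : ℝ, ‖II f p θ - meanCurv f p‖ = ρ

/-- components as complex functions -/
noncomputable def cx (G : ℝ × ℝ → E4) : VF := fun i q => ((G q i : ℝ) : ℂ)

variable {U : Set (ℝ × ℝ)} {G f : ℝ × ℝ → E4} {p : ℝ × ℝ}

abbrev SmE (U : Set (ℝ × ℝ)) (G : ℝ × ℝ → E4) : Prop :=
  ContDiffOn ℝ ((⊤ : ℕ∞) : WithTop ℕ∞) G U

noncomputable def prL (i : Fin 4) : E4 →L[ℝ] ℂ :=
  Complex.ofRealCLM.comp (EuclideanSpace.proj i)

theorem prL_apply (i : Fin 4) (v : E4) : prL i v = ((v i : ℝ) : ℂ) := rfl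

theorem SmE.cx (h : SmE U G) : SmV U (cx G) := fun i =>
  (prL i).contDiff.comp_contDiffOn h

theorem SmE.D1 (hU : IsOpen U) (h : SmE U G) : SmE U (D1 G) := by
  have h1 : ContDiffOn ℝ ((⊤ : ℕ∞) : WithTop ℕ∞) (fderiv ℝ G) U :=
    ContDiffOn.fderiv_of_isOpen h hU (by simp)
  exact h1.clm_apply contDiffOn_const

theorem SmE.D2 (hU : IsOpen U) (h : SmE U G) : SmE U (D2 G) := by
  have h1 : ContDiffOn ℝ ((⊤ : ℕ∞) : WithTop ℕ∞) (fderiv ℝ G) U :=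
    ContDiffOn.fderiv_of_isOpen h hU (by simp)
  exact h1.clm_apply contDiffOn_const

theorem dd_cx {α β : ℂ} (hU : IsOpen U) (hp : p ∈ U) (h : SmE U G) (i : Fin 4) :
    dd α β (cx G i) p = α * cx (D1 G) i p + β * cx (D2 G) i p := by
  have hd : DifferentiableAt ℝ G p :=
    (h.contDiffAt (hU.mem_nhds hp)).differentiableAt (by simp)
  have : HasFDerivAt (cx G i) ((prL i).comp (fderiv ℝ G p)) p :=
    (prL i).hasFDerivAt.comp p hd.hasFDerivAt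
  unfold dd
  rw [this.fderiv]
  rfl

theorem dd_lin {α β γ δ : ℂ} (hU : IsOpen U) (hp : p ∈ U) {F K : ℝ × ℝ → ℂ}
    (h : Sm U F) (k : Sm U K) :
    dd α β (fun q => γ * F q + δ * K q) p = γ * dd α β F p + δ * dd α β K p := by
  rw [dd_add hU hp ((Sm.const γ).mul h) ((Sm.const δ).mul k), dd_mul hU hp (Sm.const γ) h,
    dd_mul hU hp (Sm.const δ) k, dd_const, dd_const]
  ring

theorem dd_dd_cx {α β γ δ : ℂ} (hU : IsOpen U) (hp : p ∈ U) (h : SmE U G) (i : Fin 4) :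
    dd α β (dd γ δ (cx G i)) p =
      γ * (α * cx (D1 (D1 G)) i p + β * cx (D2 (D1 G)) i p)
      + δ * (α * cx (D1 (D2 G)) i p + β * cx (D2 (D2 G)) i p) := by
  have h1 : dd α β (dd γ δ (cx G i)) p
      = dd α β (fun q => γ * cx (D1 G) i q + δ * cx (D2 G) i q) p :=
    dd_congr hU hp fun q hq => dd_cx hU hq h i
  rw [h1, dd_lin hU hp (h.D1 hU |>.cx i) (h.D2 hU |>.cx i), dd_cx hU hp (h.D1 hU),
    dd_cx hU hp (h.D2 hU)]

theorem D12_comm (hU : IsOpen U) (hp : p ∈ U) (h : SmE U G) (i : Fin 4) :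
    cx (D1 (D2 G)) i p = cx (D2 (D1 G)) i p := by
  have := dd_comm (α := 1) (β := 0) (γ := 0) (δ := 1) hU hp (h.cx i)
  rw [dd_dd_cx hU hp h, dd_dd_cx hU hp h] at this
  simpa using this

theorem inner_cx (v w : E4) :
    ((inner ℝ v w : ℝ) : ℂ) = ∑ i, ((v i : ℝ) : ℂ) * ((w i : ℝ) : ℂ) := by
  rw [PiLp.inner_apply]
  push_cast
  exact Finset.sum_congr rfl fun i _ => by simp [mul_comm]

theorem norm_sq_cx (v : E4) :
    (((‖v‖ ^ 2 : ℝ)) : ℂ) = ∑ i, ((v i : ℝ) : ℂ) * ((v i : ℝ) : ℂ) := by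
  rw [← inner_cx, real_inner_self_eq_norm_sq]

/-- Parseval relation adapted to two orthogonal vectors of the same length. -/
theorem exists_normal (a b : E4) (ha : a ≠ 0) (hab : ‖a‖ = ‖b‖) (ho : inner ℝ a b = 0) :
    ∃ m n : E4, (inner ℝ a m = 0 ∧ inner ℝ b m = 0 ∧ inner ℝ a n = 0 ∧ inner ℝ b n = 0) ∧
      ∀ V W : Fin 4 → ℂ,
      (‖a‖ ^ 2 : ℝ) * (∑ i, V i * W i) =
        (∑ i, V i * (a i : ℂ)) * (∑ i, W i * (a i : ℂ))
        + (∑ i, V i * (b i : ℂ)) * (∑ i, W i * (b i : ℂ))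
        + (‖a‖ ^ 2 : ℝ) * ((∑ i, V i * (m i : ℂ)) * (∑ i, W i * (m i : ℂ))
          + (∑ i, V i * (n i : ℂ)) * (∑ i, W i * (n i : ℂ))) := by
  have hE : ‖a‖ ≠ 0 := by simpa using ha
  have hEb : ‖b‖ ≠ 0 := hab ▸ hE
  let v : Fin 4 → E4 := fun k => if k = 0 then ‖a‖⁻¹ • a else ‖a‖⁻¹ • b
  have v0 : v 0 = ‖a‖⁻¹ • a := rfl
  have v1 : v 1 = ‖a‖⁻¹ • b := rfl
  have hv : Orthonormal ℝ (({0, 1} : Set (Fin 4)).domRestrict v) := by
    rw [orthonormal_iff_ite]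
    rintro ⟨i, hi⟩ ⟨j, hj⟩
    have hi' : i = 0 ∨ i = 1 := hi
    have hj' : j = 0 ∨ j = 1 := hj
    show inner ℝ (v i) (v j) = _
    rcases hi' with rfl | rfl <;> rcases hj' with rfl | rfl
    · rw [v0, real_inner_self_eq_norm_sq, norm_smul]
      simp [hE]
    · rw [v0, v1, inner_smul_left, inner_smul_right, ho]
      simp
    · rw [v0, v1, inner_smul_left, inner_smul_right, real_inner_comm, ho]
      simp
    · rw [v1, real_inner_self_eq_norm_sq, norm_smul, hab]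
      simp [hEb]
  obtain ⟨B, hB⟩ := hv.exists_orthonormalBasis_extension_of_card_eq
    (by simp)
  have h0 : B 0 = ‖a‖⁻¹ • a := by rw [hB 0 (by simp)]; simp [v]
  have h1 : B 1 = ‖a‖⁻¹ • b := by rw [hB 1 (by simp)]; simp [v]
  have ha' : a = ‖a‖ • B 0 := by rw [h0, smul_smul, mul_inv_cancel₀ hE, one_smul]
  have hb' : b = ‖a‖ • B 1 := by rw [h1, smul_smul, mul_inv_cancel₀ hE, one_smul]
  have hin : ∀ i j : Fin 4, i ≠ j → inner ℝ (B i) (B j) = 0 := fun i j hij =>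
    B.orthonormal.2 hij
  refine ⟨B 2, B 3, ⟨?_, ?_, ?_, ?_⟩, fun V W => ?_⟩
  · rw [ha', inner_smul_left, hin 0 2 (by decide)]; simp
  · rw [hb', inner_smul_left, hin 1 2 (by decide)]; simp
  · rw [ha', inner_smul_left, hin 0 3 (by decide)]; simp
  · rw [hb', inner_smul_left, hin 1 3 (by decide)]; simp
  have hs : ∀ (V : Fin 4 → ℂ) (w : E4), ∑ i, V i * (((‖a‖⁻¹ • w) i : ℝ) : ℂ)
      = (‖a‖ : ℂ)⁻¹ * ∑ i, V i * (w i : ℂ) := by
    intro V w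
    rw [Finset.mul_sum]
    refine Finset.sum_congr rfl fun i _ => ?_
    simp; ring
  have hE' : (‖a‖ : ℂ) ≠ 0 := by exact_mod_cast hE
  rw [parseval B V W, Fin.sum_univ_four, h0, h1, hs, hs, hs, hs]
  push_cast
  field_simp
  ring

end Run7.h573
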