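import Mathlib
import Pool.Agent.Run7.h573.SCMain

set_option autoImplicit false

/-! Building the analytic data of a superconformal null 2-type surface. -/

namespace Run7.h573

open Complex ComplexConjugate

variable {U : Set (ℝ × ℝ)} {f : ℝ × ℝ → E4} {p : ℝ × ℝ}

theorem smE_Lap (hU : IsOpen U) (hf : IsConformalImmersion U f) {F : ℝ × ℝ → E4}
    (hF : SmE U F) : SmE U (Lap f F) := by
  have h1 : ContDiffOn ℝ ((⊤ : ℕ∞) : WithTop ℕ∞) (fun p => ‖D1 f p‖ ^ 2) U :=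
    (SmE.D1 hU hf.smooth).norm_sq ℝ
  have h2 : ContDiffOn ℝ ((⊤ : ℕ∞) : WithTop ℕ∞) (fun p => (‖D1 f p‖ ^ 2)⁻¹) U :=
    h1.inv fun q hq => by
      have := hf.immersion q hq
      simpa using this
  exact h2.smul (((hF.D1 hU).D1 hU).add ((hF.D2 hU).D2 hU))

theorem E_pos (hf : IsConformalImmersion U f) (hp : p ∈ U) : 0 < ‖D1 f p‖ ^ 2 := by
  have := hf.immersion p hp
  have : 0 < ‖D1 f p‖ := by simpa using this
  positivity

/-- `D₁D₁F + D₂D₂F = E Δ F` -/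
theorem sum_eq (hf : IsConformalImmersion U f) (hp : p ∈ U) (F : ℝ × ℝ → E4) (i : Fin 4) :
    cx (D1 (D1 F)) i p + cx (D2 (D2 F)) i p = ((‖D1 f p‖ ^ 2 : ℝ) : ℂ) * cx (Lap f F) i p := by
  have h := E_pos hf hp
  have h1 : (‖D1 f p‖ ^ 2) • Lap f F p = D1 (D1 F) p + D2 (D2 F) p := by
    rw [Lap, smul_smul, mul_inv_cancel₀ h.ne', one_smul]
  have h2 := congrArg (fun v : E4 => ((v i : ℝ) : ℂ)) h1
  simp only [PiLp.smul_apply, PiLp.add_apply, smul_eq_mul] at h2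
  push_cast at h2
  simp only [cx]
  push_cast
  exact h2.symm

/-- the analytic data attached to a null 2-type conformal immersion -/
theorem mkData (hU : IsOpen U) (hf : IsConformalImmersion U f) {c : ℝ} (hc : c ≠ 0)
    (hΔ : ∀ p ∈ U, Lap f (Lap f f) p = c • Lap f f p) :
    Data U (fun i => dz (cx f i)) (fun i => dw (cx f i))
      (fun i q => (c : ℂ)⁻¹ * cx (Lap f f) i q) (fun q => ((‖D1 f q‖ ^ 2 : ℝ) : ℂ) / 2)
      ((c : ℂ) / 2) := by
  have hc' : (c : ℂ) ≠ 0 := by exact_mod_cast hc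
  have sf : SmV U (cx f) := SmE.cx hf.smooth
  have sL : SmE U (Lap f f) := smE_Lap hU hf hf.smooth
  have sLc : SmV U (cx (Lap f f)) := SmE.cx sL
  have e1 : ∀ p ∈ U, ∀ i, dw (dz (cx f i)) p
      = (c : ℂ) / 2 * (((‖D1 f p‖ ^ 2 : ℝ) : ℂ) / 2) * ((c : ℂ)⁻¹ * cx (Lap f f) i p) := by
    intro p hp i
    have h1 : dw (dz (cx f i)) p = _ := dd_dd_cx hU hp hf.smooth i
    rw [h1, D12_comm hU hp hf.smooth]
    have h2 := sum_eq hf hp f i
    have h3 : (c : ℂ) / 2 * (((‖D1 f p‖ ^ 2 : ℝ) : ℂ) / 2) * ((c : ℂ)⁻¹ * cx (Lap f f) i p)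
        = (((‖D1 f p‖ ^ 2 : ℝ) : ℂ) * cx (Lap f f) i p) / 4 := by
      field_simp; ring
    rw [h3, ← h2]
    linear_combination (-1 / 4 * cx (D2 (D2 f)) i p) * I_sq
  refine
    { hU := hU
      sX := fun i => (sf i).dz hU
      sY := fun i => (sf i).dw hU
      sy := fun i => (Sm.const _).mul (sLc i)
      c0 := div_ne_zero hc' two_ne_zero
      e0 := ?_
      Xw := e1
      Yz := ?_
      yzw := ?_
      XX := ?_
      YY := ?_
      XY := ?_ }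
  · intro p hp
    have := (E_pos hf hp).ne'
    have : ((‖D1 f p‖ ^ 2 : ℝ) : ℂ) ≠ 0 := by exact_mod_cast this
    exact div_ne_zero this two_ne_zero
  · intro p hp i
    rw [← e1 p hp i]
    exact dd_comm hU hp (sf i)
  · intro p hp i
    have h0 : dz (dw (fun q => (c : ℂ)⁻¹ * cx (Lap f f) i q)) p
        = dz (fun q => (c : ℂ)⁻¹ * dw (cx (Lap f f) i) q) p := by
      refine dd_congr hU hp fun q hq => ?_
      have h1 := dd_mul (α := 1 / 2) (β := I / 2) hU hq (Sm.const (c : ℂ)⁻¹) (sLc i)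
      have h2 := dd_const (α := 1 / 2) (β := I / 2) (p := q) (c : ℂ)⁻¹
      show dd _ _ _ _ = _
      rw [h1, h2]
      show _ = _ * dd _ _ _ _
      ring
    have h0' : dz (fun q => (c : ℂ)⁻¹ * dw (cx (Lap f f) i) q) p
        = (c : ℂ)⁻¹ * dz (dw (cx (Lap f f) i)) p := by
      have h1 := dd_mul (α := 1 / 2) (β := -I / 2) hU hp (Sm.const (c : ℂ)⁻¹) ((sLc i).dw hU)
      have h2 := dd_const (α := 1 / 2) (β := -I / 2) (p := p) (c : ℂ)⁻¹
      show dd _ _ _ _ = _ * dd _ _ _ _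
      rw [h1, h2]; ring
    have h3 : dz (dw (cx (Lap f f) i)) p = _ := dd_dd_cx hU hp sL i
    have h4 := sum_eq hf hp (Lap f f) i
    have h5 : cx (Lap f (Lap f f)) i p = (c : ℂ) * cx (Lap f f) i p := by
      simp only [cx, hΔ p hp]
      simp
    rw [h5] at h4
    show dz (dw (fun q => (c : ℂ)⁻¹ * cx (Lap f f) i q)) p = _
    rw [h0, h0', h3, D12_comm hU hp sL]
    have h6 : (c : ℂ) / 2 * (((‖D1 f p‖ ^ 2 : ℝ) : ℂ) / 2) * ((c : ℂ)⁻¹ * cx (Lap f f) i p)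
        = (c : ℂ)⁻¹ * ((((‖D1 f p‖ ^ 2 : ℝ) : ℂ) * ((c : ℂ) * cx (Lap f f) i p)) / 4) := by
      field_simp; ring
    rw [h6, ← h4]
    linear_combination (c : ℂ)⁻¹ * (-1 / 4 * cx (D2 (D2 (Lap f f))) i p) * I_sq
  · intro p hp
    have h1 := inner_cx (D1 f p) (D2 f p)
    have h2 := norm_sq_cx (D1 f p)
    have h3 := norm_sq_cx (D2 f p)
    rw [← hf.norm_eq p hp, h2] at h3
    rw [hf.orthogonal p hp] at h1
    simp only [Fin.sum_univ_four] at h1 h2 h3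
    have h4 : ∀ i, dz (cx f i) p = _ := fun i => dd_cx hU hp hf.smooth i
    simp only [dot, Fin.sum_univ_four, h4, cx]
    push_cast at h1
    linear_combination (1 / 4) * h3 + (I / 2) * h1
      + (1 / 4) * ((D2 f p 0 : ℂ) ^ 2 + (D2 f p 1 : ℂ) ^ 2 + (D2 f p 2 : ℂ) ^ 2
        + (D2 f p 3 : ℂ) ^ 2) * I_sq
  · intro p hp
    have h1 := inner_cx (D1 f p) (D2 f p)
    have h2 := norm_sq_cx (D1 f p)
    have h3 := norm_sq_cx (D2 f p)
    rw [← hf.norm_eq p hp, h2] at h3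
    rw [hf.orthogonal p hp] at h1
    simp only [Fin.sum_univ_four] at h1 h2 h3
    have h4 : ∀ i, dw (cx f i) p = _ := fun i => dd_cx hU hp hf.smooth i
    simp only [dot, Fin.sum_univ_four, h4, cx]
    push_cast at h1
    linear_combination (1 / 4) * h3 - (I / 2) * h1
      + (1 / 4) * ((D2 f p 0 : ℂ) ^ 2 + (D2 f p 1 : ℂ) ^ 2 + (D2 f p 2 : ℂ) ^ 2
        + (D2 f p 3 : ℂ) ^ 2) * I_sq
  · intro p hp
    have h2 := norm_sq_cx (D1 f p)
    have h3 := norm_sq_cx (D2 f p)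
    rw [← hf.norm_eq p hp] at h3
    have h4 : ∀ i, dz (cx f i) p = _ := fun i => dd_cx hU hp hf.smooth i
    have h5 : ∀ i, dw (cx f i) p = _ := fun i => dd_cx hU hp hf.smooth i
    simp only [Fin.sum_univ_four] at h2 h3
    simp only [dot, Fin.sum_univ_four, h4, h5, cx]
    linear_combination (-1 / 4) * h2 + (-1 / 4) * h3
      - (1 / 4) * ((D2 f p 0 : ℂ) ^ 2 + (D2 f p 1 : ℂ) ^ 2 + (D2 f p 2 : ℂ) ^ 2
        + (D2 f p 3 : ℂ) ^ 2) * I_sq

end Run7.h573
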