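import Mathlib
import Pool.Agent.Run7.h573.SCData
import Pool.Agent.Run7.h573.Alg2

set_option autoImplicit false

/-! Superconformal null 2-type surfaces have constant mean curvature. -/

namespace Run7.h573

open Complex ComplexConjugate

variable {U : Set (ℝ × ℝ)} {f : ℝ × ℝ → E4} {p : ℝ × ℝ}

theorem nor_inner (hf : IsConformalImmersion U f) (hp : p ∈ U) (v w : E4) :
    ‖D1 f p‖ ^ 2 * inner ℝ (nor f p v) (nor f p w) = ‖D1 f p‖ ^ 2 * inner ℝ v w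
      - (inner ℝ v (D1 f p) * inner ℝ w (D1 f p) + inner ℝ v (D2 f p) * inner ℝ w (D2 f p)) := by
  have h : ‖D1 f p‖ ≠ 0 := by
    have := hf.immersion p hp
    simpa using this
  have h12 := hf.orthogonal p hp
  have h21 : inner ℝ (D2 f p) (D1 f p) = (0 : ℝ) := by rw [real_inner_comm]; exact h12
  have hn : ‖D2 f p‖ = ‖D1 f p‖ := (hf.norm_eq p hp).symm
  have hw1 : inner ℝ (D1 f p) w = inner ℝ w (D1 f p) := real_inner_comm _ _
  have hw2 : inner ℝ (D2 f p) w = inner ℝ w (D2 f p) := real_inner_comm _ _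
  simp only [nor, inner_sub_left, inner_sub_right, inner_smul_left, inner_smul_right, h12, h21,
    hw1, hw2, real_inner_self_eq_norm_sq, hn, conj_trivial]
  field_simp
  ring

theorem nor_add (v w : E4) : nor f p (v + w) = nor f p v + nor f p w := by
  simp only [nor, inner_add_left, add_div, add_smul]; abel

theorem nor_smul (r : ℝ) (v : E4) : nor f p (r • v) = r • nor f p v := by
  simp only [nor, inner_smul_left, conj_trivial, mul_div_assoc, mul_smul, smul_sub]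

theorem circle_cond (hf : IsConformalImmersion U f) (hp : p ∈ U)
    (h : CircularCurvatureEllipse f p) :
    ‖nor f p (D1 (D1 f) p - D2 (D2 f) p)‖ = 2 * ‖nor f p (D2 (D1 f) p)‖ ∧
    inner ℝ (nor f p (D1 (D1 f) p - D2 (D2 f) p)) (nor f p (D2 (D1 f) p)) = 0 := by
  obtain ⟨ρ, hρ⟩ := h
  have hE := E_pos hf hp
  set a := D1 (D1 f) p with ha
  set b := D2 (D1 f) p with hb
  set d := D2 (D2 f) p with hd
  set E := ‖D1 f p‖ ^ 2 with hEE
  have hsub : nor f p (a - d) = nor f p a - nor f p d := by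
    have : a - d = a + (-1 : ℝ) • d := by rw [neg_one_smul]; abel
    rw [this, nor_add, nor_smul, neg_one_smul]; abel
  have key : ∀ θ : ℝ, II f p θ - meanCurv f p
      = E⁻¹ • ((Real.cos (2 * θ) / 2) • nor f p (a - d) + Real.sin (2 * θ) • nor f p b) := by
    intro θ
    have h1 : ∀ t : ℝ, II f p t = E⁻¹ • ((Real.cos t ^ 2) • nor f p a
        + (2 * Real.sin t * Real.cos t) • nor f p b + (Real.sin t ^ 2) • nor f p d) := by
      intro t
      simp only [II, nor_add, nor_smul, ← ha, ← hb, ← hd, ← hEE]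
    rw [meanCurv, h1, h1, h1, hsub]
    simp only [Real.cos_zero, Real.sin_zero, Real.cos_pi_div_two, Real.sin_pi_div_two]
    rw [Real.cos_two_mul, Real.sin_two_mul]
    have hs : Real.sin θ ^ 2 = 1 - Real.cos θ ^ 2 := by
      have := Real.sin_sq_add_cos_sq θ; linarith
    rw [hs]
    module
  have h0 := hρ 0
  have h1 := hρ (Real.pi / 4)
  have h2 := hρ (Real.pi / 8)
  rw [key] at h0 h1 h2
  rw [show 2 * (0 : ℝ) = 0 by ring, Real.cos_zero, Real.sin_zero, zero_smul, add_zero,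
    norm_smul, norm_smul] at h0
  rw [show 2 * (Real.pi / 4) = Real.pi / 2 by ring, Real.cos_pi_div_two, Real.sin_pi_div_two,
    zero_div, zero_smul, zero_add, one_smul, norm_smul] at h1
  rw [show 2 * (Real.pi / 8) = Real.pi / 4 by ring, Real.cos_pi_div_four, Real.sin_pi_div_four]
    at h2
  have hEi : ‖E⁻¹‖ = E⁻¹ := by rw [Real.norm_eq_abs, abs_of_pos (inv_pos.2 hE)]
  have hE0 := hE.ne'
  rw [hEi] at h0 h1
  have h0' : ‖nor f p (a - d)‖ = 2 * (E * ρ) := by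
    rw [← h0]; rw [Real.norm_eq_abs, show |(1 / 2 : ℝ)| = 1 / 2 by norm_num]; field_simp
  have h1' : ‖nor f p b‖ = E * ρ := by rw [← h1]; field_simp
  refine ⟨by rw [h0', h1'], ?_⟩
  have h3 : (√2 / 2 / 2) • nor f p (a - d) + (√2 / 2) • nor f p b
      = (√2 / 2) • ((1 / 2 : ℝ) • nor f p (a - d) + nor f p b) := by module
  rw [h3, norm_smul, norm_smul, hEi] at h2
  have h4 : ‖(1 / 2 : ℝ) • nor f p (a - d) + nor f p b‖ ^ 2 = 2 * (E * ρ) ^ 2 := by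
    have h5 : ‖√2 / 2‖ = √2 / 2 := by
      rw [Real.norm_eq_abs, abs_of_nonneg (by positivity)]
    rw [h5] at h2
    have h6 : (√2 / 2) * ‖(1 / 2 : ℝ) • nor f p (a - d) + nor f p b‖ = E * ρ := by
      rw [← h2]; field_simp
    have h7 : (√2) ^ 2 = 2 := Real.sq_sqrt (by norm_num)
    rw [← h6, mul_pow, div_pow, h7]; ring
  rw [norm_add_sq_real, norm_smul, h0', h1', inner_smul_left, Real.norm_eq_abs,
    show |(1 / 2 : ℝ)| = 1 / 2 by norm_num, conj_trivial] at h4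
  linear_combination h4

theorem mkSCData (hU : IsOpen U) (hf : IsConformalImmersion U f) {c : ℝ} (hc : c ≠ 0)
    (hΔ : ∀ p ∈ U, Lap f (Lap f f) p = c • Lap f f p)
    (hci : ∀ p ∈ U, CircularCurvatureEllipse f p) :
    SCData U (fun i => dz (cx f i)) (fun i => dw (cx f i))
      (fun i q => (c : ℂ)⁻¹ * cx (Lap f f) i q) (fun q => ((‖D1 f q‖ ^ 2 : ℝ) : ℂ) / 2)
      ((c : ℂ) / 2) := by
  refine { toData := mkData hU hf hc hΔ, sc := ?_ }
  intro p hp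
  have D := mkData hU hf hc hΔ
  obtain ⟨k1, k2⟩ := circle_cond hf hp (hci p hp)
  set a := D1 (D1 f) p with ha
  set b := D2 (D1 f) p with hb
  set d := D2 (D2 f) p with hd
  set x := a - d with hx
  have hE := (E_pos hf hp).ne'
  have n1 := nor_inner hf hp x x
  have n2 := nor_inner hf hp b b
  have n3 := nor_inner hf hp x b
  rw [real_inner_self_eq_norm_sq, k1] at n1
  rw [real_inner_self_eq_norm_sq] at n2
  rw [k2] at n3
  have hv : ∀ i, vz (fun i => dz (cx f i)) i p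
      = (1 / 4) * ((x i : ℝ) : ℂ) - (I / 2) * ((b i : ℝ) : ℂ) := by
    intro i
    have h1 : dz (dz (cx f i)) p = _ := dd_dd_cx hU hp hf.smooth i
    show dz (dz (cx f i)) p = _
    rw [h1, D12_comm hU hp hf.smooth]
    simp only [cx, ← ha, ← hb, ← hd, hx, PiLp.sub_apply]
    push_cast
    linear_combination (1 / 4 * ((d i : ℝ) : ℂ)) * I_sq
  have hX : ∀ i, dz (cx f i) p = (1 / 2) * ((D1 f p i : ℝ) : ℂ) - (I / 2) * ((D2 f p i : ℝ) : ℂ) := by
    intro i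
    have h1 : dz (cx f i) p = _ := dd_cx hU hp hf.smooth i
    rw [h1]; simp only [cx]; ring
  have hXX := D.XzX p hp
  simp only [dot, hv, hX, Fin.sum_univ_four] at hXX
  have c1 := inner_cx x (D1 f p)
  have c2 := inner_cx x (D2 f p)
  have c3 := inner_cx b (D1 f p)
  have c4 := inner_cx b (D2 f p)
  simp only [Fin.sum_univ_four] at c1 c2 c3 c4
  have h5 : (((inner ℝ x (D1 f p) - 2 * inner ℝ b (D2 f p) : ℝ)) : ℂ)
      - I * ((inner ℝ x (D2 f p) + 2 * inner ℝ b (D1 f p) : ℝ) : ℂ) = 0 := by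
    push_cast
    rw [c1, c2, c3, c4]
    linear_combination 8 * hXX - (2 * ((b 0 : ℂ) * (D2 f p 0 : ℂ) + (b 1 : ℂ) * (D2 f p 1 : ℂ)
      + (b 2 : ℂ) * (D2 f p 2 : ℂ) + (b 3 : ℂ) * (D2 f p 3 : ℂ))) * I_sq
  have h6 := congrArg Complex.re h5
  have h7 := congrArg Complex.im h5
  simp only [sub_re, mul_re, I_re, I_im, ofReal_re, ofReal_im, sub_im, mul_im, zero_re, zero_im]
    at h6 h7
  have h6' : inner ℝ x (D1 f p) = 2 * inner ℝ b (D2 f p) := by linarith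
  have h7' : inner ℝ x (D2 f p) = - (2 * inner ℝ b (D1 f p)) := by linarith
  rw [h6', h7'] at n1 n3
  have r1 : inner ℝ x x = 4 * inner ℝ b b := by
    have : ‖D1 f p‖ ^ 2 * (inner ℝ x x - 4 * inner ℝ b b) = 0 := by linear_combination 4 * n2 - n1
    have := (mul_eq_zero.1 this).resolve_left hE
    linarith
  have r2 : inner ℝ x b = 0 := by
    have : ‖D1 f p‖ ^ 2 * (inner ℝ x b) = 0 := by linear_combination - n3
    exact (mul_eq_zero.1 this).resolve_left hE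
  have d1 := inner_cx x x
  have d2 := inner_cx b b
  have d3 := inner_cx x b
  rw [r1] at d1
  rw [r2] at d3
  push_cast at d1 d3
  rw [d2] at d1
  simp only [Fin.sum_univ_four] at d1 d2 d3
  simp only [dot, hv, Fin.sum_univ_four]
  linear_combination (-1 / 16) * d1 + (I / 4) * d3
    + (1 / 4) * ((b 0 : ℂ) ^ 2 + (b 1 : ℂ) ^ 2 + (b 2 : ℂ) ^ 2 + (b 3 : ℂ) ^ 2) * I_sq

theorem conj_dd {α β : ℂ} {F G : ℝ × ℝ → ℂ} (hU : IsOpen U) (hp : p ∈ U) (h : Sm U F)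
    (k : ∀ q ∈ U, G q = conj (F q)) : dd (conj α) (conj β) G p = conj (dd α β F p) := by
  rw [dd_congr hU hp (G := fun q => conj (F q)) k]
  have h1 : HasFDerivAt (fun q => conj (F q))
      ((Complex.conjCLE : ℂ →L[ℝ] ℂ).comp (fderiv ℝ F p)) p :=
    (Complex.conjCLE : ℂ →L[ℝ] ℂ).hasFDerivAt.comp p (h.diffAt hU hp).hasFDerivAt
  unfold dd
  rw [h1.fderiv]
  simp

theorem conj_dz {F G : ℝ × ℝ → ℂ} (hU : IsOpen U) (hp : p ∈ U) (h : Sm U F)
    (k : ∀ q ∈ U, G q = conj (F q)) : dw G p = conj (dz F p) := by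
  have := conj_dd (α := 1 / 2) (β := -I / 2) hU hp h k
  have h0 : (conj (2 : ℂ)) = 2 := Complex.conj_ofNat 2
  have h1 : (conj (1 / 2 : ℂ)) = 1 / 2 := by simp [h0]
  have h2 : (conj (-I / 2 : ℂ)) = I / 2 := by simp [h0]
  rw [h1, h2] at this
  exact this

/-- the frame formula -/
theorem frame (hU : IsOpen U) (hf : IsConformalImmersion U f) (hp : p ∈ U) :
    ∃ m n : E4, ((∑ i, dz (cx f i) p * (m i : ℂ)) = 0 ∧ (∑ i, dz (cx f i) p * (n i : ℂ)) = 0) ∧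
      ∀ V W : VF,
      (((‖D1 f p‖ ^ 2 : ℝ) : ℂ) / 2) * dot V W p =
        dot V (fun i => dz (cx f i)) p * dot W (fun i => dw (cx f i)) p
        + dot V (fun i => dw (cx f i)) p * dot W (fun i => dz (cx f i)) p
        + (((‖D1 f p‖ ^ 2 : ℝ) : ℂ) / 2) *
          ((∑ i, V i p * (m i : ℂ)) * (∑ i, W i p * (m i : ℂ))
            + (∑ i, V i p * (n i : ℂ)) * (∑ i, W i p * (n i : ℂ))) := by
  obtain ⟨m, n, ⟨am, bm, an, bn⟩, h⟩ := exists_normal (D1 f p) (D2 f p) (hf.immersion p hp)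
    (hf.norm_eq p hp) (hf.orthogonal p hp)
  have hz : ∀ w : E4, inner ℝ (D1 f p) w = 0 → inner ℝ (D2 f p) w = 0 →
      (∑ i, dz (cx f i) p * (w i : ℂ)) = 0 := by
    intro w h1 h2
    have e1 := inner_cx (D1 f p) w
    have e2 := inner_cx (D2 f p) w
    rw [h1] at e1
    rw [h2] at e2
    have : ∀ i, dz (cx f i) p = _ := fun i => dd_cx hU hp hf.smooth i
    simp only [this, cx]
    simp only [Fin.sum_univ_four] at e1 e2 ⊢
    push_cast at e1 e2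
    linear_combination (-1 / 2) * e1 + (I / 2) * e2
  refine ⟨m, n, ⟨hz m am bm, hz n an bn⟩, fun V W => ?_⟩
  have hX : ∀ V : VF, dot V (fun i => dz (cx f i)) p
      = (1 / 2) * (∑ i, V i p * (D1 f p i : ℂ)) - (I / 2) * (∑ i, V i p * (D2 f p i : ℂ)) := by
    intro V
    simp only [dot, Finset.mul_sum, ← Finset.sum_sub_distrib]
    refine Finset.sum_congr rfl fun i _ => ?_
    have h1 : dz (cx f i) p = _ := dd_cx hU hp hf.smooth i
    rw [h1]; simp only [cx]; ring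
  have hY : ∀ V : VF, dot V (fun i => dw (cx f i)) p
      = (1 / 2) * (∑ i, V i p * (D1 f p i : ℂ)) + (I / 2) * (∑ i, V i p * (D2 f p i : ℂ)) := by
    intro V
    simp only [dot, Finset.mul_sum, ← Finset.sum_add_distrib]
    refine Finset.sum_congr rfl fun i _ => ?_
    have h1 : dw (cx f i) p = _ := dd_cx hU hp hf.smooth i
    rw [h1]; simp only [cx]; ring
  have h2 := h (fun i => V i p) (fun i => W i p)
  rw [hX, hX, hY, hY]
  simp only [dot] at h2 ⊢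
  linear_combination (1 / 2) * h2 + (1 / 2) * (∑ i, V i p * (D2 f p i : ℂ))
    * (∑ i, W i p * (D2 f p i : ℂ)) * I_sq

/-- the pointwise identities -/
theorem pt_data (hU : IsOpen U) (hf : IsConformalImmersion U f) {c : ℝ} (hc : c ≠ 0)
    (hΔ : ∀ p ∈ U, Lap f (Lap f f) p = c • Lap f f p)
    (hci : ∀ p ∈ U, CircularCurvatureEllipse f p) (hp : p ∈ U) :
    ∃ (A1 A2 P1 P2 : ℂ) (y1 y2 : ℝ),
      A1 ^ 2 + A2 ^ 2 = 0 ∧
      P1 * A1 + P2 * A2 = 0 ∧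
      A1 * conj P1 + A2 * conj P2
        = -(2 * ((c / 2 : ℝ) : ℂ) * ((‖D1 f p‖ ^ 2 / 2 : ℝ) : ℂ)) * (P1 * y1 + P2 * y2) ∧
      (A1 * y1 + A2 * y2) * ((A1 * conj A1 + A2 * conj A2)
        + ((c / 2 : ℝ) : ℂ) ^ 2 * ((‖D1 f p‖ ^ 2 / 2 : ℝ) : ℂ) ^ 2 * ((y1 : ℂ) ^ 2 + (y2 : ℂ) ^ 2)
        + ((c / 2 : ℝ) : ℂ) * ((‖D1 f p‖ ^ 2 / 2 : ℝ) : ℂ) ^ 2)
        + ((c / 2 : ℝ) : ℂ) * ((‖D1 f p‖ ^ 2 / 2 : ℝ) : ℂ) ^ 2 * (P1 ^ 2 + P2 ^ 2) = 0 ∧
      dz (fun q => (((c⁻¹) ^ 2 * ‖Lap f f q‖ ^ 2 : ℝ) : ℂ)) p = 2 * (P1 * y1 + P2 * y2) ∧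
      (c⁻¹) ^ 2 * ‖Lap f f p‖ ^ 2 = y1 ^ 2 + y2 ^ 2 ∧
      (((‖D1 f p‖ ^ 2 / 2 : ℝ) : ℂ) * (dw (dz (fun q => (((c⁻¹) ^ 2 * ‖Lap f f q‖ ^ 2 : ℝ) : ℂ))) p / 2
          - ((c / 2 : ℝ) : ℂ) * ((‖D1 f p‖ ^ 2 / 2 : ℝ) : ℂ) * ((y1 : ℂ) ^ 2 + (y2 : ℂ) ^ 2))
        = (A1 * y1 + A2 * y2) * conj (A1 * y1 + A2 * y2)
        + ((c / 2 : ℝ) : ℂ) ^ 2 * ((‖D1 f p‖ ^ 2 / 2 : ℝ) : ℂ) ^ 2 * ((y1 : ℂ) ^ 2 + (y2 : ℂ) ^ 2) ^ 2
        + ((‖D1 f p‖ ^ 2 / 2 : ℝ) : ℂ) * (P1 * conj P1 + P2 * conj P2)) ∧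
      (A1 = 0 → A2 = 0 → P1 = 0 → P2 = 0 → 1 + (c / 2) * (y1 ^ 2 + y2 ^ 2) = 0 →
        ∀ i, dz (fun q => (c : ℂ)⁻¹ * cx (Lap f f) i q) p = dz (cx f i) p) := by
  have S := mkSCData hU hf hc hΔ hci
  have D := S.toData
  obtain ⟨m, n, ⟨Xm, Xn⟩, hfr⟩ := frame hU hf hp
  have hE := E_pos hf hp
  set X : VF := fun i => dz (cx f i) with hX
  set Y : VF := fun i => dw (cx f i) with hY
  set y : VF := fun i q => (c : ℂ)⁻¹ * cx (Lap f f) i q with hy
  set E : ℝ := ‖D1 f p‖ ^ 2 with hEE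
  set e : ℝ × ℝ → ℂ := fun q => ((‖D1 f q‖ ^ 2 : ℝ) : ℂ) / 2 with he
  have hep : e p = (E : ℂ) / 2 := rfl
  rw [← hep] at hfr
  -- values
  set A1 : ℂ := ∑ i, vz X i p * (m i : ℂ) with hA1
  set A2 : ℂ := ∑ i, vz X i p * (n i : ℂ) with hA2
  set P1 : ℂ := ∑ i, vz y i p * (m i : ℂ) with hP1
  set P2 : ℂ := ∑ i, vz y i p * (n i : ℂ) with hP2
  set y1 : ℝ := ∑ i, c⁻¹ * Lap f f p i * m i with hy1
  set y2 : ℝ := ∑ i, c⁻¹ * Lap f f p i * n i with hy2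
  have cy1 : ∑ i, y i p * (m i : ℂ) = (y1 : ℂ) := by
    simp only [hy, hy1, cx]; push_cast; rfl
  have cy2 : ∑ i, y i p * (n i : ℂ) = (y2 : ℂ) := by
    simp only [hy, hy2, cx]; push_cast; rfl
  have hXY : ∀ q ∈ U, ∀ i, Y i q = conj (X i q) := fun q hq i =>
    conj_dz hU hq (SmE.cx hf.smooth i) fun r _ => by simp [cx]
  have hYw : ∀ i, vw Y i p = conj (vz X i p) := fun i =>
    conj_dz hU hp (D.sX i) fun r hr => hXY r hr i
  have hyw : ∀ i, vw y i p = conj (vz y i p) := fun i =>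
    conj_dz hU hp (D.sy i) fun r hr => by simp [hy, cx]
  have cA1 : ∑ i, vw Y i p * (m i : ℂ) = conj A1 := by
    rw [hA1, map_sum]; exact Finset.sum_congr rfl fun i _ => by rw [hYw, map_mul, conj_ofReal]
  have cA2 : ∑ i, vw Y i p * (n i : ℂ) = conj A2 := by
    rw [hA2, map_sum]; exact Finset.sum_congr rfl fun i _ => by rw [hYw, map_mul, conj_ofReal]
  have cP1 : ∑ i, vw y i p * (m i : ℂ) = conj P1 := by
    rw [hP1, map_sum]; exact Finset.sum_congr rfl fun i _ => by rw [hyw, map_mul, conj_ofReal]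
  have cP2 : ∑ i, vw y i p * (n i : ℂ) = conj P2 := by
    rw [hP2, map_sum]; exact Finset.sum_congr rfl fun i _ => by rw [hyw, map_mul, conj_ofReal]
  have e0 := D.e0 p hp
  -- identities
  have q1 := hfr (vz X) (vz X)
  have q2 := hfr (vz y) (vz X)
  have q3 := hfr (vw y) (vz X)
  have q4 := hfr (vz X) (vw Y)
  have q5 := hfr (vz y) (vz y)
  have q6 := hfr (vz y) y
  have q7 := hfr (vz X) y
  have q8 := hfr y y
  have q9 := hfr (vz y) (vw y)
  have yX : dot y X p = 0 := by rw [dot_comm]; exact D.Xy p hp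
  have yY : dot y Y p = 0 := by rw [dot_comm]; exact D.Yy p hp
  rw [← hA1, ← hA2] at q1 q2 q3 q4 q7
  rw [← hP1, ← hP2] at q2 q5 q6
  rw [cP1, cP2] at q3
  rw [cA1, cA2] at q4
  rw [cy1, cy2] at q6 q7 q8
  rw [← hP1, ← hP2, cP1, cP2, D.yzX p hp, D.ywY p hp, D.yzY p hp, D.ywX p hp] at q9
  rw [S.sc p hp, D.XzX p hp] at q1
  rw [D.XzX p hp, D.XzY p hp, D.yzX p hp] at q2
  rw [D.XzX p hp, D.XzY p hp, D.ywX p hp] at q3
  rw [D.XzX p hp, D.XzY p hp, D.YwX p hp] at q4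
  rw [D.yzX p hp, D.yzY p hp] at q5
  rw [yX, yY] at q6 q7 q8
  have t1 := D.T p hp
  have t2 := S.i1 p hp
  have t3 := S.i2 p hp
  have t4 := D.ezw p hp
  have t5 := D.rz p hp
  have u1 : A1 ^ 2 + A2 ^ 2 = 0 := by
    have : e p * (A1 ^ 2 + A2 ^ 2) = 0 := by linear_combination -q1
    exact (mul_eq_zero.1 this).resolve_left e0
  have u2 : P1 * A1 + P2 * A2 = 0 := by
    have : e p * (P1 * A1 + P2 * A2) = 0 := by linear_combination t2 - q2
    exact (mul_eq_zero.1 this).resolve_left e0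
  have r6 : dot (vz y) y p = P1 * y1 + P2 * y2 := by
    have : e p * (dot (vz y) y p - (P1 * y1 + P2 * y2)) = 0 := by linear_combination q6
    exact sub_eq_zero.1 ((mul_eq_zero.1 this).resolve_left e0)
  have r7 : dot (vz X) y p = A1 * y1 + A2 * y2 := by
    have : e p * (dot (vz X) y p - (A1 * y1 + A2 * y2)) = 0 := by linear_combination q7
    exact sub_eq_zero.1 ((mul_eq_zero.1 this).resolve_left e0)
  have r8 : dot y y p = (y1 : ℂ) ^ 2 + (y2 : ℂ) ^ 2 := by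
    have : e p * (dot y y p - ((y1 : ℂ) ^ 2 + (y2 : ℂ) ^ 2)) = 0 := by linear_combination q8
    exact sub_eq_zero.1 ((mul_eq_zero.1 this).resolve_left e0)
  have r7' : dot (vw Y) y p = conj (dot (vz X) y p) := by
    simp only [dot, map_sum, map_mul]
    refine Finset.sum_congr rfl fun i _ => ?_
    rw [hYw]
    congr 1
    simp [hy, cx]
  rw [r8] at q3 q5 t1 t4 q9
  rw [r7', r7] at q9
  rw [r7] at q2 t3 q5
  rw [r6] at t5 t3
  rw [t5] at t1
  have u3 : A1 * conj P1 + A2 * conj P2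
      = -(2 * ((c / 2 : ℝ) : ℂ) * ((E / 2 : ℝ) : ℂ)) * (P1 * y1 + P2 * y2) := by
    have e1 : ((E / 2 : ℝ) : ℂ) = e p := by rw [hep]; push_cast; rfl
    rw [e1]; push_cast
    have : e p * ((A1 * conj P1 + A2 * conj P2)
      + (2 * ((c : ℂ) / 2) * e p) * (P1 * y1 + P2 * y2)) = 0 := by
      linear_combination (e p) * t1 - q3
    have := (mul_eq_zero.1 this).resolve_left e0
    linear_combination this
  have u4 : (A1 * y1 + A2 * y2) * ((A1 * conj A1 + A2 * conj A2)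
        + ((c / 2 : ℝ) : ℂ) ^ 2 * ((E / 2 : ℝ) : ℂ) ^ 2 * ((y1 : ℂ) ^ 2 + (y2 : ℂ) ^ 2)
        + ((c / 2 : ℝ) : ℂ) * ((E / 2 : ℝ) : ℂ) ^ 2)
        + ((c / 2 : ℝ) : ℂ) * ((E / 2 : ℝ) : ℂ) ^ 2 * (P1 ^ 2 + P2 ^ 2) = 0 := by
    have e1 : ((E / 2 : ℝ) : ℂ) = e p := by rw [hep]; push_cast; rfl
    rw [e1]; push_cast
    have : e p * ((A1 * y1 + A2 * y2) * ((A1 * conj A1 + A2 * conj A2)
        + ((c : ℂ) / 2) ^ 2 * (e p) ^ 2 * ((y1 : ℂ) ^ 2 + (y2 : ℂ) ^ 2)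
        + ((c : ℂ) / 2) * (e p) ^ 2)
        + ((c : ℂ) / 2) * (e p) ^ 2 * (P1 ^ 2 + P2 ^ 2)) = 0 := by
      linear_combination (e p) * t3 - (e p) * (A1 * y1 + A2 * y2) * t4
        - (A1 * y1 + A2 * y2) * q4 - (dw e p) * q2 - ((c : ℂ) / 2) * (e p) ^ 2 * q5
        - (dw e p) * (e p) * u2
    exact (mul_eq_zero.1 this).resolve_left e0
  have hR : ∀ q, dot y y q = (((c⁻¹) ^ 2 * ‖Lap f f q‖ ^ 2 : ℝ) : ℂ) := by
    intro q
    have h1 := norm_sq_cx (Lap f f q)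
    push_cast at h1 ⊢
    rw [h1]
    simp only [dot, hy, cx, Finset.mul_sum]
    exact Finset.sum_congr rfl fun i _ => by ring
  have hR' : (c⁻¹) ^ 2 * ‖Lap f f p‖ ^ 2 = y1 ^ 2 + y2 ^ 2 := by
    have h1 := hR p
    rw [r8] at h1
    exact_mod_cast h1.symm
  have hRf : dot y y = fun q => (((c⁻¹) ^ 2 * ‖Lap f f q‖ ^ 2 : ℝ) : ℂ) := funext hR
  have hrr : dw (dz (dot y y)) p = 2 * ((c : ℂ) / 2 * e p * ((y1 : ℂ) ^ 2 + (y2 : ℂ) ^ 2)
      + dot (vz y) (vw y) p) := by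
    have h1 : dw (dz (dot y y)) p = dw (fun q => 2 * dot (vz y) y q) p :=
      dd_congr hU hp fun q hq => D.rz q hq
    have h2 := dd_mul (α := 1 / 2) (β := I / 2) hU hp (Sm.const 2) (Sm.dot (D.sy.vz hU) D.sy)
    have h3 := dd_const (α := 1 / 2) (β := I / 2) (p := p) (2 : ℂ)
    rw [h3] at h2
    rw [h1]
    show dd _ _ _ _ = _
    rw [h2]
    have h4 : dd (1 / 2) (I / 2) (dot (vz y) y) p = _ := dw_dot hU hp (D.sy.vz hU) D.sy
    rw [h4, Data.dot_smul_left ((c : ℂ) / 2) (D.ywz p hp), r8]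
    ring
  have e1 : ((E / 2 : ℝ) : ℂ) = e p := by rw [hep]; push_cast; rfl
  refine ⟨A1, A2, P1, P2, y1, y2, u1, u2, u3, u4, ?_, hR', ?_, ?_⟩
  · rw [← hRf, t5]
  · rw [← hRf, hrr, e1]
    push_cast
    linear_combination q9
  · intro z1 z2 z3 z4 z5 i
    have g : ∀ W : VF, dot (fun i q => vz y i q - X i q) W p = 0 := by
      intro W
      have h1 := hfr (fun i q => vz y i q - X i q) W
      have h2 : ∀ W : VF, dot (fun i q => vz y i q - X i q) W p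
          = dot (vz y) W p - dot X W p := by
        intro W
        simp only [dot, ← Finset.sum_sub_distrib]
        exact Finset.sum_congr rfl fun i _ => by ring
      have h3 : ∑ i, (vz y i p - X i p) * (m i : ℂ) = P1 := by
        have : ∑ i, (vz y i p - X i p) * (m i : ℂ)
            = ∑ i, vz y i p * (m i : ℂ) - ∑ i, X i p * (m i : ℂ) := by
          rw [← Finset.sum_sub_distrib]
          exact Finset.sum_congr rfl fun i _ => by ring
        rw [this, ← hP1, show ∑ i, X i p * (m i : ℂ) = 0 from Xm, sub_zero]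
      have h4 : ∑ i, (vz y i p - X i p) * (n i : ℂ) = P2 := by
        have : ∑ i, (vz y i p - X i p) * (n i : ℂ)
            = ∑ i, vz y i p * (n i : ℂ) - ∑ i, X i p * (n i : ℂ) := by
          rw [← Finset.sum_sub_distrib]
          exact Finset.sum_congr rfl fun i _ => by ring
        rw [this, ← hP2, show ∑ i, X i p * (n i : ℂ) = 0 from Xn, sub_zero]
      rw [h2 X, h2 Y, h3, h4, D.yzX p hp, D.yzY p hp, D.XX p hp, D.XY p hp, r7, r8, z1, z2, z3,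
        z4] at h1
      have z5' : 1 + ((c : ℂ) / 2) * ((y1 : ℂ) ^ 2 + (y2 : ℂ) ^ 2) = 0 := by exact_mod_cast z5
      have h5 : e p * dot (fun i q => vz y i q - X i q) W p = 0 := by
        linear_combination h1 - e p * dot W X p * z5'
      exact (mul_eq_zero.1 h5).resolve_left e0
    have h6 := g (fun j _ => if j = i then 1 else 0)
    simp only [dot, mul_ite, mul_one, mul_zero, Finset.sum_ite_eq', Finset.mem_univ, if_true] at h6
    exact sub_eq_zero.1 h6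

/-- conclusion at each point -/
theorem pointwise (hU : IsOpen U) (hf : IsConformalImmersion U f) {c : ℝ} (hc : c ≠ 0)
    (hΔ : ∀ p ∈ U, Lap f (Lap f f) p = c • Lap f f p)
    (hci : ∀ p ∈ U, CircularCurvatureEllipse f p) (hp : p ∈ U) :
    dz (fun q => (((c⁻¹) ^ 2 * ‖Lap f f q‖ ^ 2 : ℝ) : ℂ)) p = 0 ∨
      3 * (c / 2) * ((c⁻¹) ^ 2 * ‖Lap f f p‖ ^ 2) + 1 = 0 := by
  obtain ⟨A1, A2, P1, P2, y1, y2, u1, u2, u3, u4, u5, u6, -, -⟩ := pt_data hU hf hc hΔ hci hp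
  have hc2 : c / 2 ≠ 0 := div_ne_zero hc two_ne_zero
  have hE2 : ‖D1 f p‖ ^ 2 / 2 ≠ 0 := div_ne_zero (E_pos hf hp).ne' two_ne_zero
  rcases alg_sc A1 A2 P1 P2 y1 y2 (c / 2) (‖D1 f p‖ ^ 2 / 2) hc2 hE2 u1 u2 u3 u4 with h | h
  · left
    rw [u5, h, mul_zero]
  · right
    rw [u6]; exact h

/-- the real form of `pointwise` -/
theorem pointwise_real (hU : IsOpen U) (hf : IsConformalImmersion U f) {c : ℝ} (hc : c ≠ 0)
    (hΔ : ∀ p ∈ U, Lap f (Lap f f) p = c • Lap f f p)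
    (hci : ∀ p ∈ U, CircularCurvatureEllipse f p) (hp : p ∈ U) :
    fderiv ℝ (fun q => ‖Lap f f q‖ ^ 2) p = 0 ∨ 3 * ‖Lap f f p‖ ^ 2 + 2 * c = 0 := by
  have sL : SmE U (Lap f f) := smE_Lap hU hf hf.smooth
  have hd : DifferentiableAt ℝ (fun q => ‖Lap f f q‖ ^ 2) p :=
    ((sL.norm_sq ℝ).contDiffAt (hU.mem_nhds hp)).differentiableAt (by simp)
  rcases pointwise hU hf hc hΔ hci hp with h | h
  · left
    have h1 : HasFDerivAt (fun q => (((c⁻¹) ^ 2 * ‖Lap f f q‖ ^ 2 : ℝ) : ℂ))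
        (Complex.ofRealCLM.comp ((c⁻¹) ^ 2 • fderiv ℝ (fun q => ‖Lap f f q‖ ^ 2) p)) p :=
      Complex.ofRealCLM.hasFDerivAt.comp p (hd.hasFDerivAt.const_mul ((c⁻¹) ^ 2))
    unfold dz dd at h
    rw [h1.fderiv] at h
    have hk : (c⁻¹) ^ 2 ≠ 0 := pow_ne_zero 2 (inv_ne_zero hc)
    set k : ℝ := (c⁻¹) ^ 2 with hkk
    set L := fderiv ℝ (fun q => ‖Lap f f q‖ ^ 2) p with hL
    have h' : (1 / 2 : ℂ) * ((k * L (1, 0) : ℝ) : ℂ) + (-I / 2) * ((k * L (0, 1) : ℝ) : ℂ) = 0 := h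
    have h4 : ((k * L (1, 0) : ℝ) : ℂ) - I * ((k * L (0, 1) : ℝ) : ℂ) = 0 := by
      linear_combination 2 * h'
    have h5 := congrArg Complex.re h4
    have h6 := congrArg Complex.im h4
    simp only [sub_re, mul_re, I_re, I_im, ofReal_re, ofReal_im, sub_im, mul_im, zero_re,
      zero_im, zero_mul, one_mul, sub_zero, zero_sub, mul_zero, zero_add, neg_eq_zero] at h5 h6
    have h7 : L (1, 0) = 0 := (mul_eq_zero.1 h5).resolve_left hk
    have h8 : L (0, 1) = 0 := (mul_eq_zero.1 h6).resolve_left hk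
    refine ContinuousLinearMap.ext fun v => ?_
    have hv : v = v.1 • ((1, 0) : ℝ × ℝ) + v.2 • ((0, 1) : ℝ × ℝ) := by
      ext <;> simp
    rw [hv, map_add, map_smul, map_smul, h7, h8]
    simp
  · right
    have : (2 * c)⁻¹ * (3 * ‖Lap f f p‖ ^ 2 + 2 * c) = 0 := by
      rw [← h]; field_simp
    exact (mul_eq_zero.1 this).resolve_left (inv_ne_zero (mul_ne_zero two_ne_zero hc))

/-- A superconformal surface with `Δ H = c H`, `c ≠ 0`, has mean curvature of constant length. -/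
theorem superconformal_const (hU : IsOpen U) (hUc : IsPreconnected U)
    (hf : IsConformalImmersion U f) {c : ℝ} (hc : c ≠ 0)
    (hΔ : ∀ p ∈ U, Lap f (Lap f f) p = c • Lap f f p)
    (hci : ∀ p ∈ U, CircularCurvatureEllipse f p) :
    ∃ k : ℝ, ∀ p ∈ U, ‖Lap f f p‖ = k := by
  have sL : SmE U (Lap f f) := smE_Lap hU hf hf.smooth
  have sR : ContDiffOn ℝ ((⊤ : ℕ∞) : WithTop ℕ∞) (fun q => ‖Lap f f q‖ ^ 2) U := sL.norm_sq ℝ
  have cd : ContinuousOn (fderiv ℝ (fun q => ‖Lap f f q‖ ^ 2)) U :=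
    sR.continuousOn_fderiv_of_isOpen hU (by simp)
  have h0 : U.EqOn (fderiv ℝ (fun q => ‖Lap f f q‖ ^ 2)) 0 := by
    intro p hp
    by_contra hne
    have h1 : ∀ᶠ q in nhds p, fderiv ℝ (fun q => ‖Lap f f q‖ ^ 2) q ≠ 0 :=
      (cd.continuousAt (hU.mem_nhds hp)).eventually_ne hne
    have h2 : ∀ᶠ q in nhds p, q ∈ U := hU.mem_nhds hp
    have h3 : (fun q => ‖Lap f f q‖ ^ 2) =ᶠ[nhds p] fun _ => -(2 * c) / 3 := by
      filter_upwards [h1, h2] with q hq1 hq2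
      have := (pointwise_real hU hf hc hΔ hci hq2).resolve_left hq1
      linarith
    exact hne (by rw [h3.fderiv_eq]; simp)
  obtain ⟨a, ha⟩ := hU.exists_is_const_of_fderiv_eq_zero hUc
    (sR.differentiableOn (by simp)) h0
  refine ⟨√a, fun p hp => ?_⟩
  rw [← ha p hp, Real.sqrt_sq (norm_nonneg _)]

theorem fderiv_zero_of_dz {G : ℝ × ℝ → E4} (hU : IsOpen U) (hG : SmE U G) (hp : p ∈ U)
    (h : ∀ i, dz (cx G i) p = 0) : fderiv ℝ G p = 0 := by
  have key : ∀ i, D1 G p i = 0 ∧ D2 G p i = 0 := by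
    intro i
    have h1 : dz (cx G i) p = _ := dd_cx hU hp hG i
    rw [h i] at h1
    have h2 : ((D1 G p i : ℝ) : ℂ) - I * ((D2 G p i : ℝ) : ℂ) = 0 := by
      simp only [cx] at h1
      linear_combination (-2) * h1
    have h5 := congrArg Complex.re h2
    have h6 := congrArg Complex.im h2
    simp only [sub_re, mul_re, I_re, I_im, ofReal_re, ofReal_im, sub_im, mul_im, zero_re,
      zero_im, zero_mul, one_mul, sub_zero, zero_sub, mul_zero, zero_add, neg_eq_zero] at h5 h6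
    exact ⟨h5, h6⟩
  have k1 : fderiv ℝ G p (1, 0) = 0 := PiLp.ext fun i => (key i).1
  have k2 : fderiv ℝ G p (0, 1) = 0 := PiLp.ext fun i => (key i).2
  refine ContinuousLinearMap.ext fun v => ?_
  have hv : v = v.1 • ((1, 0) : ℝ × ℝ) + v.2 • ((0, 1) : ℝ × ℝ) := by
    ext <;> simp
  rw [hv, map_add, map_smul, map_smul, k1, k2]
  simp

/-- Superconformal solutions of `Δ H = c H`, `c ≠ 0`, are minimal or of 1-type. -/
theorem superconformal_main (hU : IsOpen U) (hUc : IsPreconnected U)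
    (hf : IsConformalImmersion U f) {c : ℝ} (hc : c ≠ 0)
    (hΔ : ∀ p ∈ U, Lap f (Lap f f) p = c • Lap f f p)
    (hci : ∀ p ∈ U, CircularCurvatureEllipse f p) :
    (∀ p ∈ U, Lap f f p = 0) ∨
      ∃ a : E4, ∀ p ∈ U, Lap f f p = c • (f p - a) ∧ ‖f p - a‖ ^ 2 = -2 / c := by
  obtain ⟨k, hk⟩ := superconformal_const hU hUc hf hc hΔ hci
  have sL : SmE U (Lap f f) := smE_Lap hU hf hf.smooth
  by_cases hk0 : k = 0
  · left; intro p hp
    have := hk p hp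
    rw [hk0] at this
    exact norm_eq_zero.1 this
  right
  have hpt : ∀ p ∈ U, (∀ i, dz (fun q => (c : ℂ)⁻¹ * cx (Lap f f) i q) p = dz (cx f i) p) ∧
      (c⁻¹) ^ 2 * ‖Lap f f p‖ ^ 2 = -2 / c := by
    intro p hp
    obtain ⟨A1, A2, P1, P2, y1, y2, u1, u2, u3, u4, u5, u6, u7, u8⟩ :=
      pt_data hU hf hc hΔ hci hp
    have hc2 : c / 2 ≠ 0 := div_ne_zero hc two_ne_zero
    have hE2 : ‖D1 f p‖ ^ 2 / 2 ≠ 0 := div_ne_zero (E_pos hf hp).ne' two_ne_zero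
    have hconst : ∀ q ∈ U, (((c⁻¹) ^ 2 * ‖Lap f f q‖ ^ 2 : ℝ) : ℂ) = (((c⁻¹) ^ 2 * k ^ 2 : ℝ) : ℂ) :=
      fun q hq => by rw [hk q hq]
    have hdz : ∀ q ∈ U, dz (fun q => (((c⁻¹) ^ 2 * ‖Lap f f q‖ ^ 2 : ℝ) : ℂ)) q = 0 := by
      intro q hq
      have h1 : dz (fun q => (((c⁻¹) ^ 2 * ‖Lap f f q‖ ^ 2 : ℝ) : ℂ)) q
          = dz (fun _ => (((c⁻¹) ^ 2 * k ^ 2 : ℝ) : ℂ)) q := dd_congr hU hq hconst
      rw [h1]; exact dd_const _
    have hdw : dw (dz (fun q => (((c⁻¹) ^ 2 * ‖Lap f f q‖ ^ 2 : ℝ) : ℂ))) p = 0 := by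
      have h1 : dw (dz (fun q => (((c⁻¹) ^ 2 * ‖Lap f f q‖ ^ 2 : ℝ) : ℂ))) p
          = dw (fun _ => (0 : ℂ)) p := dd_congr hU hp hdz
      rw [h1]; exact dd_const _
    rw [hdz p hp] at u5
    rw [hdw] at u7
    have hr : y1 ^ 2 + y2 ^ 2 ≠ 0 := by
      rw [← u6, hk p hp]
      exact mul_ne_zero (pow_ne_zero 2 (inv_ne_zero hc)) (pow_ne_zero 2 hk0)
    have u5' : P1 * y1 + P2 * y2 = 0 := by
      have : (2 : ℂ) * (P1 * y1 + P2 * y2) = 0 := u5.symm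
      exact (mul_eq_zero.1 this).resolve_left two_ne_zero
    obtain ⟨z1, z2, z3, z4, z5⟩ := alg_sc2 A1 A2 P1 P2 y1 y2 (c / 2) (‖D1 f p‖ ^ 2 / 2) hc2 hE2
      hr u1 u2 u3 u4 u5' (by linear_combination u7)
    refine ⟨u8 z1 z2 z3 z4 z5, ?_⟩
    rw [u6]
    field_simp
    linear_combination 2 * z5
  have sG : SmE U (fun q => c⁻¹ • Lap f f q - f q) := (sL.const_smul c⁻¹).sub hf.smooth
  have hG : U.EqOn (fderiv ℝ (fun q => c⁻¹ • Lap f f q - f q)) 0 := by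
    intro p hp
    refine fderiv_zero_of_dz hU sG hp fun i => ?_
    have h1 : dz (cx (fun q => c⁻¹ • Lap f f q - f q) i) p
        = dz (fun q => (c : ℂ)⁻¹ * cx (Lap f f) i q - cx f i q) p :=
      dd_congr hU hp fun q _ => by simp [cx]
    rw [h1]
    have h2 := dd_sub (α := 1 / 2) (β := -I / 2) hU hp
      ((Sm.const (c : ℂ)⁻¹).mul (SmE.cx sL i)) (SmE.cx hf.smooth i)
    show dd _ _ _ _ = 0
    rw [h2]
    exact sub_eq_zero.2 ((hpt p hp).1 i)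
  obtain ⟨a, ha⟩ := hU.exists_is_const_of_fderiv_eq_zero hUc
    (sG.differentiableOn (by simp)) hG
  refine ⟨-a, fun p hp => ?_⟩
  have h1 : c⁻¹ • Lap f f p - f p = a := ha p hp
  have h2 : Lap f f p = c • (f p - -a) := by
    rw [← h1, sub_neg_eq_add, add_sub_cancel, smul_smul, mul_inv_cancel₀ hc, one_smul]
  refine ⟨h2, ?_⟩
  have h3 : f p - -a = c⁻¹ • Lap f f p := by
    rw [h2, smul_smul, inv_mul_cancel₀ hc, one_smul]
  rw [h3, norm_smul, mul_pow, Real.norm_eq_abs, sq_abs]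
  exact (hpt p hp).2

end Run7.h573
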